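import Pool.Agent.Helper74.LM.Defs

set_option autoImplicit false

/-! Project LM, module Basic: elementary properties of immersions. -/

namespace Pool.Agent.Helper74.LM

open Finset

section Basic

variable {V : Type}

lemma Conn.mono {F F' : Set (Sym2 V)} (h : F ⊆ F') {x y : V} (hc : Conn F x y) : Conn F' x y :=
  SimpleGraph.Reachable.mono (SimpleGraph.fromEdgeSet_mono h) hc

lemma Conn.single {x y : V} (h : x ≠ y) : Conn ({s(x, y)} : Set (Sym2 V)) x y := by
  apply SimpleGraph.Adj.reachable
  rw [SimpleGraph.fromEdgeSet_adj]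
  exact ⟨by simp, h⟩

lemma Conn.of_mem {F : Set (Sym2 V)} {x y : V} (h : x ≠ y) (hm : s(x, y) ∈ F) : Conn F x y := by
  apply SimpleGraph.Adj.reachable
  rw [SimpleGraph.fromEdgeSet_adj]
  exact ⟨hm, h⟩

lemma Conn.symm {F : Set (Sym2 V)} {x y : V} (h : Conn F x y) : Conn F y x :=
  SimpleGraph.Reachable.symm h

lemma Conn.trans {F : Set (Sym2 V)} {x y z : V} (h : Conn F x y) (h' : Conn F y z) : Conn F x z :=
  SimpleGraph.Reachable.trans h h'

/-- Subgraphs are immersed. -/
lemma imm_of_le {H G : SimpleGraph V} (h : H ≤ G) : Imm H G := by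
  refine ⟨fun e => {e}, ?_, ?_, ?_⟩
  · intro e he
    simp only [Set.singleton_subset_iff]
    exact SimpleGraph.edgeSet_mono h he
  · intro e _ e' _ hne
    simpa using hne
  · intro x y hxy
    exact Conn.single hxy.ne

/-- The immersion relation is transitive. -/
lemma imm_trans {H G G' : SimpleGraph V} (h : Imm H G) (h' : Imm G G') : Imm H G' := by
  obtain ⟨F, hF1, hF2, hF3⟩ := h
  obtain ⟨E, hE1, hE2, hE3⟩ := h'
  refine ⟨fun e => ⋃ e' ∈ F e, E e', ?_, ?_, ?_⟩
  · intro e he
    apply Set.iUnion₂_subset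
    intro e' he'
    exact hE1 e' (hF1 e he he')
  · intro e he e' he' hne
    rw [Set.disjoint_left]
    intro x hx hx'
    rw [Set.mem_iUnion₂] at hx hx'
    obtain ⟨a, ha, hxa⟩ := hx
    obtain ⟨b, hb, hxb⟩ := hx'
    have hab : a ≠ b := by
      rintro rfl
      exact Set.disjoint_left.1 (hF2 e he e' he' hne) ha hb
    exact Set.disjoint_left.1 (hE2 a (hF1 e he ha) b (hF1 e' he' hb) hab) hxa hxb
  · intro x y hxy
    have hr := hF3 x y hxy
    have key : ∀ a b : V, (SimpleGraph.fromEdgeSet (F s(x, y))).Reachable a b →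
        Conn (⋃ e' ∈ F s(x, y), E e') a b := by
      intro a b hab
      obtain ⟨w⟩ := hab
      induction w with
      | nil => exact SimpleGraph.Reachable.refl _
      | cons hadj _ ih =>
        refine Conn.trans ?_ ih
        rw [SimpleGraph.fromEdgeSet_adj] at hadj
        have hG : G.Adj _ _ := hF1 _ (by simpa using hxy) hadj.1
        refine Conn.mono ?_ (hE3 _ _ hG)
        exact Set.subset_biUnion_of_mem (u := fun e' => E e') hadj.1
    exact key x y hr

/-- Edge-disjoint unions of immersions. -/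
lemma imm_sup {A B A' B' : SimpleGraph V} (h : Imm A B) (h' : Imm A' B') (hA : EDisj A A')
    (hB : EDisj B B') : Imm (A ⊔ A') (B ⊔ B') := by
  classical
  obtain ⟨F, hF1, hF2, hF3⟩ := h
  obtain ⟨E, hE1, hE2, hE3⟩ := h'
  have hAe : ∀ e, e ∈ A.edgeSet → e ∉ A'.edgeSet := by
    intro e
    induction e using Sym2.ind with
    | _ x y => exact fun h1 h2 => hA x y h1 h2
  have hBe : ∀ e, e ∈ B.edgeSet → e ∉ B'.edgeSet := by
    intro e
    induction e using Sym2.ind with
    | _ x y => exact fun h1 h2 => hB x y h1 h2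
  refine ⟨fun e => if e ∈ A.edgeSet then F e else E e, ?_, ?_, ?_⟩
  · intro e he
    rw [SimpleGraph.edgeSet_sup] at he
    rw [SimpleGraph.edgeSet_sup]
    by_cases h1 : e ∈ A.edgeSet
    · simp only [h1, if_true]
      exact (hF1 e h1).trans Set.subset_union_left
    · simp only [h1, if_false]
      exact (hE1 e (he.resolve_left h1)).trans Set.subset_union_right
  · intro e he e' he' hne
    rw [SimpleGraph.edgeSet_sup] at he he'
    by_cases h1 : e ∈ A.edgeSet <;> by_cases h2 : e' ∈ A.edgeSet
    · simp only [h1, h2, if_true]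
      exact hF2 e h1 e' h2 hne
    · simp only [h1, h2, if_true, if_false]
      rw [Set.disjoint_left]
      intro x hx hx'
      exact hBe x (hF1 e h1 hx) (hE1 e' (he'.resolve_left h2) hx')
    · simp only [h1, h2, if_true, if_false]
      rw [Set.disjoint_left]
      intro x hx hx'
      exact hBe x (hF1 e' h2 hx') (hE1 e (he.resolve_left h1) hx)
    · simp only [h1, h2, if_false]
      exact hE2 e (he.resolve_left h1) e' (he'.resolve_left h2) hne
  · intro x y hxy
    by_cases h1 : A.Adj x y
    · have : s(x, y) ∈ A.edgeSet := h1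
      simp only [this, if_true]
      exact hF3 x y h1
    · have : s(x, y) ∉ A.edgeSet := h1
      simp only [this, if_false]
      exact hE3 x y (hxy.resolve_left h1)

lemma imm_bot (G : SimpleGraph V) : Imm ⊥ G := imm_of_le bot_le

lemma HasK.of_imm {H G : SimpleGraph V} {t : ℕ} (h : HasK H t) (h' : Imm H G) : HasK G t := by
  obtain ⟨B, hB, hI⟩ := h
  exact ⟨B, hB, imm_trans hI h'⟩

end Basic

section Fin

variable {V : Type} [Fintype V] [DecidableEq V]

lemma nb_sup (G H : SimpleGraph V) (x : V) : nb (G ⊔ H) x = nb G x ∪ nb H x := by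
  ext y
  simp

lemma card_nb_sup {G H : SimpleGraph V} (h : EDisj G H) (x : V) :
    (nb (G ⊔ H) x).card = (nb G x).card + (nb H x).card := by
  rw [nb_sup, card_union_of_disjoint]
  rw [disjoint_left]
  intro y hy hy'
  exact h x y (by simpa using hy) (by simpa using hy')

omit [DecidableEq V] in
lemma nb_mono {G H : SimpleGraph V} (h : G ≤ H) (x : V) : nb G x ⊆ nb H x := by
  intro y hy
  rw [mem_nb] at *
  exact h hy

lemma Miss.mono {H : SimpleGraph V} {W W' : Finset V} (h : W' ⊆ W) :
    ∀ {l : List V}, Miss H W l → Miss H W' l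
  | [], _ => trivial
  | _ :: _, hl => ⟨(card_le_card (sdiff_subset_sdiff h (Subset.refl _))).trans hl.1, hl.2.mono h⟩

omit [Fintype V] [DecidableEq V] in
lemma Tree.nodup {H : SimpleGraph V} : ∀ {l : List V}, Tree H l → l.Nodup
  | [], _ => List.nodup_nil
  | _ :: _, hl => List.nodup_cons.2 ⟨hl.2.1, hl.1.nodup⟩

end Fin

end Pool.Agent.Helper74.LM
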