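import Pool.Agent.Helper74.LM.KempeConn

set_option autoImplicit false

/-!
# LM-Kempe: edge-disjoint Kempe chains at a vertex of a critical graph

PROOF.  Let `c` be a colouring of `U.erase v` with `n` colours (`hUv`), `N = nb (restr G U) v` (all its
vertices are in `U.erase v`).  Every colour `a < n` occurs on `N`, otherwise `Function.update c v a` would
show `ColOn G U n`.  Let `T = {a < n | exactly one vertex of N has colour a}`.  Counting (`N` is the
disjoint union of its colour classes, `Finset.card_eq_sum_card_fiberwise`),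
`|N| ≥ |T| + 2 (n - |T|)`, so `|T| ≥ 2 n - |N| ≥ s`.  Choose `T' ⊆ T` with `s` elements, `x a` the unique
vertex of `N` of colour `a`, `B = insert v {x a | a ∈ T'}`, of cardinality `s + 1`.

Routing: `F e = {e}` if `v ∈ e`, and otherwise `F e` is the set of the edges `s(z, z')` of `G` with
`z, z' ∈ U.erase v` and `Sym2.map c s(z, z') = Sym2.map c e`.  Disjointness is clear (`c` is injective on
`{x a | a ∈ T'}`, so an edge of `B` not containing `v` is determined by its pair of colours; the edges at
`v` are no edges inside `U.erase v`).  Connectivity: `Conn.single` for the edges at `v`, and `kempe_conn`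
with `Conn.mono` for the others.
-/

namespace Pool.Agent.Helper74.LM

open Finset

variable {V : Type} [Fintype V] [DecidableEq V]

theorem kempe (G : SimpleGraph V) (U : Finset V) (v : V) (n s : ℕ) (hv : v ∈ U)
    (hU : ¬ ColOn G U n) (hUv : ColOn G (U.erase v) n)
    (hs : (nb (restr G U) v).card + s ≤ 2 * n) :
    HasK (restr G U) (s + 1) := by
  classical
  obtain ⟨c, hc, hc2⟩ := hUv
  set N := nb (restr G U) v with hN
  have hNmem : ∀ z, z ∈ N ↔ z ∈ U.erase v ∧ G.Adj v z := by
    intro z
    rw [hN, mem_nb]
    constructor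
    · rintro ⟨_, hz, hadj⟩
      exact ⟨mem_erase.2 ⟨hadj.ne', hz⟩, hadj⟩
    · rintro ⟨hz, hadj⟩
      exact ⟨hv, (mem_erase.1 hz).2, hadj⟩
  -- every colour occurs on `N`
  have hocc : ∀ a < n, ∃ z ∈ N, c z = a := by
    intro a ha
    by_contra hcon
    push Not at hcon
    apply hU
    refine ⟨Function.update c v a, ?_, ?_⟩
    · intro x hx
      by_cases h : x = v
      · subst h
        rw [Function.update_self]
        exact ha
      · rw [Function.update_of_ne h]
        exact hc x (mem_erase.2 ⟨h, hx⟩)
    · intro x hx y hy hadj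
      by_cases h : x = v
      · subst h
        have hy' : y ≠ x := hadj.ne'
        rw [Function.update_self, Function.update_of_ne hy']
        exact fun he => hcon y ((hNmem y).2 ⟨mem_erase.2 ⟨hy', hy⟩, hadj⟩) he.symm
      · by_cases h' : y = v
        · subst h'
          rw [Function.update_self, Function.update_of_ne h]
          exact hcon x ((hNmem x).2 ⟨mem_erase.2 ⟨h, hx⟩, hadj.symm⟩)
        · rw [Function.update_of_ne h, Function.update_of_ne h']
          exact hc2 x (mem_erase.2 ⟨h, hx⟩) y (mem_erase.2 ⟨h', hy⟩) hadj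
  set T := (range n).filter (fun a => (N.filter (fun z => c z = a)).card = 1) with hTdef
  have hcard : N.card = ∑ a ∈ range n, (N.filter (fun z => c z = a)).card :=
    card_eq_sum_card_fiberwise (fun z hz => by
      have := hc z ((hNmem z).1 hz).1
      simpa using this)
  have hTcard : T.card = ∑ a ∈ range n, if (N.filter (fun z => c z = a)).card = 1 then 1 else 0 := by
    rw [hTdef, card_filter]
  have hge : ∑ a ∈ range n, 2 ≤ ∑ a ∈ range n, ((N.filter (fun z => c z = a)).card +
      if (N.filter (fun z => c z = a)).card = 1 then 1 else 0) := by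
    apply sum_le_sum
    intro a ha
    obtain ⟨z, hz, hza⟩ := hocc a (mem_range.1 ha)
    have : 0 < (N.filter (fun z => c z = a)).card :=
      card_pos.2 ⟨z, mem_filter.2 ⟨hz, hza⟩⟩
    split_ifs <;> omega
  rw [sum_add_distrib, ← hcard, ← hTcard, sum_const, card_range, smul_eq_mul] at hge
  have hT : s ≤ T.card := by omega
  obtain ⟨T', hT'T, hT'card⟩ := exists_subset_card_eq hT
  have hx : ∀ a ∈ T', ∃ x ∈ N, c x = a ∧ ∀ z ∈ N, c z = a → z = x := by
    intro a ha
    have h1 := (mem_filter.1 (hT'T ha)).2
    obtain ⟨x, hx⟩ := card_eq_one.1 h1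
    have hxm : x ∈ N.filter (fun z => c z = a) := by
      rw [hx]
      exact mem_singleton_self x
    refine ⟨x, (mem_filter.1 hxm).1, (mem_filter.1 hxm).2, fun z hz hza => ?_⟩
    have : z ∈ N.filter (fun z => c z = a) := mem_filter.2 ⟨hz, hza⟩
    rw [hx] at this
    exact mem_singleton.1 this
  have hTn : ∀ a ∈ T', a < n := fun a ha => mem_range.1 (mem_filter.1 (hT'T ha)).1
  have : Nonempty V := ⟨v⟩
  choose! x hxN hxc hxu using hx
  have hinj : Set.InjOn x (T' : Set ℕ) := by
    intro a ha b hb hab
    have h1 := hxc a ha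
    have h2 := hxc b hb
    rw [hab] at h1
    exact h1.symm.trans h2
  have hxv : ∀ a ∈ T', x a ≠ v := fun a ha => (mem_erase.1 ((hNmem _).1 (hxN a ha)).1).1
  have hvB : v ∉ T'.image x := by
    intro h
    obtain ⟨a, ha, hav⟩ := mem_image.1 h
    exact hxv a ha hav
  -- the elements of the clique other than `v`
  have hB : ∀ z, z ∈ insert v (T'.image x) → z ≠ v → ∃ a ∈ T', x a = z := by
    intro z hz hzv
    rcases mem_insert.1 hz with h | h
    · exact absurd h hzv
    · exact mem_image.1 h
  have hadjv : ∀ z, z ∈ insert v (T'.image x) → z ≠ v → (restr G U).Adj v z := by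
    intro z hz hzv
    obtain ⟨a, ha, rfl⟩ := hB z hz hzv
    have := hxN a ha
    rw [hN, mem_nb] at this
    exact this
  refine ⟨insert v (T'.image x), ?_, ?_⟩
  · rw [card_insert_of_notMem hvB, card_image_of_injOn hinj, hT'card]
  · refine ⟨fun e => if v ∈ e then {e} else {e' | ∃ z ∈ U.erase v, ∃ z' ∈ U.erase v,
      G.Adj z z' ∧ e' = s(z, z') ∧ Sym2.map c s(z, z') = Sym2.map c e}, ?_, ?_, ?_⟩
    · intro e
      induction e using Sym2.ind with
      | _ p q =>
        intro he
        rw [SimpleGraph.mem_edgeSet] at he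
        obtain ⟨hp, hq, hpq⟩ := he
        by_cases h : v ∈ s(p, q)
        · simp only [h, if_true]
          rw [Set.singleton_subset_iff, SimpleGraph.mem_edgeSet]
          rcases Sym2.mem_iff.1 h with h1 | h1
          · subst h1
            exact hadjv q hq hpq.symm
          · subst h1
            exact (hadjv p hp hpq).symm
        · simp only [h, if_false]
          rintro e' ⟨z, hz, z', hz', hadj, rfl, -⟩
          rw [SimpleGraph.mem_edgeSet]
          exact ⟨(mem_erase.1 hz).2, (mem_erase.1 hz').2, hadj⟩
    · intro e he e' he' hne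
      rw [Set.disjoint_left]
      intro f hf hf'
      by_cases h : v ∈ e <;> by_cases h' : v ∈ e'
      · simp only [h, if_true, Set.mem_singleton_iff] at hf
        simp only [h', if_true, Set.mem_singleton_iff] at hf'
        exact hne (hf.symm.trans hf')
      · simp only [h, if_true, Set.mem_singleton_iff] at hf
        simp only [h', if_false] at hf'
        obtain ⟨z, hz, z', hz', -, hfe, -⟩ := hf'
        rw [hf] at hfe
        rw [hfe] at h
        rcases Sym2.mem_iff.1 h with h1 | h1
        · exact (mem_erase.1 hz).1 h1.symm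
        · exact (mem_erase.1 hz').1 h1.symm
      · simp only [h, if_false] at hf
        simp only [h', if_true, Set.mem_singleton_iff] at hf'
        obtain ⟨z, hz, z', hz', -, hfe, -⟩ := hf
        rw [hf'] at hfe
        rw [hfe] at h'
        rcases Sym2.mem_iff.1 h' with h1 | h1
        · exact (mem_erase.1 hz).1 h1.symm
        · exact (mem_erase.1 hz').1 h1.symm
      · simp only [h, if_false] at hf
        simp only [h', if_false] at hf'
        obtain ⟨z, -, z', -, -, hfe, hm⟩ := hf
        obtain ⟨w, -, w', -, -, hfe', hm'⟩ := hf'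
        rw [← hfe] at hm
        rw [← hfe'] at hm'
        apply hne
        have hmap : Sym2.map c e = Sym2.map c e' := hm.symm.trans hm'
        clear hm hm' hfe hfe' hne
        induction e using Sym2.ind with
        | _ p q =>
        induction e' using Sym2.ind with
        | _ p' q' =>
          rw [SimpleGraph.mem_edgeSet] at he he'
          rw [Sym2.mem_iff, not_or] at h h'
          obtain ⟨a, ha, rfl⟩ := hB p he.1 (Ne.symm h.1)
          obtain ⟨b, hb, rfl⟩ := hB q he.2.1 (Ne.symm h.2)
          obtain ⟨a', ha', rfl⟩ := hB p' he'.1 (Ne.symm h'.1)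
          obtain ⟨b', hb', rfl⟩ := hB q' he'.2.1 (Ne.symm h'.2)
          rw [Sym2.map_mk, Sym2.map_mk] at hmap
          simp only [hxc a ha, hxc b hb, hxc a' ha', hxc b' hb'] at hmap
          rcases Sym2.eq_iff.1 hmap with ⟨h1, h2⟩ | ⟨h1, h2⟩
          · rw [h1, h2]
          · rw [h1, h2, Sym2.eq_swap]
    · intro p q hpq
      obtain ⟨hp, hq, hne⟩ := hpq
      by_cases h : v ∈ s(p, q)
      · simp only [h, if_true]
        exact Conn.single hne
      · simp only [h, if_false]
        rw [Sym2.mem_iff, not_or] at h
        obtain ⟨a, ha, rfl⟩ := hB p hp (Ne.symm h.1)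
        obtain ⟨b, hb, rfl⟩ := hB q hq (Ne.symm h.2)
        have hab : a ≠ b := fun hab => hne (by rw [hab])
        refine Conn.mono ?_ (kempe_conn G U v n hU c hc hc2 a b hab (hTn a ha) (hTn b hb)
          (x a) (x b) ?_ ?_)
        · rintro e ⟨z, hz, z', hz', hadj, hza, hzb, rfl⟩
          refine ⟨z, hz, z', hz', hadj, rfl, ?_⟩
          rw [Sym2.map_mk, Sym2.map_mk]
          simp only [hza, hzb, hxc a ha, hxc b hb]
        · intro z hz hadj hza
          exact hxu a ha z ((hNmem z).2 ⟨hz, hadj⟩) hza
        · intro z hz hadj hzb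
          exact hxu b hb z ((hNmem z).2 ⟨hz, hadj⟩) hzb

end Pool.Agent.Helper74.LM
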