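import Pool.Agent.Helper74.LM.Basic

set_option autoImplicit false

/-!
# LM-Weak: from the immersion relation to a weak immersion by paths

PROOF. `HasK G t` gives `B`, `B.card = t`, and `F` with the three properties of `Imm`.  Let
`f : Fin t ↪ V` be an enumeration of `B` (`B.equivFin` / `Finset.equivFinOfCardEq`, or
`Finset.exists_...`).  For `i < j` we have `(cliqueOn B).Adj (f i) (f j)`, hence
`Conn (F s(f i, f j)) (f i) (f j)`, i.e. there is a walk in `fromEdgeSet (F s(f i, f j))`; take
`Walk.toPath` (classically, `open Classical`), its edges are in `F s(f i, f j) ⊆ G.edgeSet`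
(`SimpleGraph.edgeSet_fromEdgeSet`, `Walk.edges_subset_edgeSet`), map it to `G` with
`Walk.transfer` (`Walk.edges_transfer`, `Walk.IsPath.transfer`).  For `i ≥ j` use any walk: if `i = j`
the nil walk, if `j < i` the reverse of the walk `p j i`.  (Simplest: for all `i ≠ j` the same
construction works since `(cliqueOn B).Adj (f i) (f j)`; for `i = j` take `Walk.nil.copy`.)
Disjointness: if `i < j`, `k < l` and `(i, j) ≠ (k, l)` then `s(f i, f j) ≠ s(f k, f l)`.
-/

namespace Pool.Agent.Helper74.LM

open Finset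

/-- Word for word the conclusion of the frozen statement S10137 with `t` for `r`. -/
def WeakImm {V : Type} (G : SimpleGraph V) (t : ℕ) : Prop :=
  ∃ f : Fin t ↪ V, ∃ p : ∀ i j : Fin t, G.Walk (f i) (f j),
    (∀ i j : Fin t, i < j → (p i j).IsPath) ∧
    ∀ i j k l : Fin t, i < j → k < l → (i ≠ k ∨ j ≠ l) →
      ∀ e ∈ (p i j).edges, e ∉ (p k l).edges

private lemma path_of_conn {V : Type} {G : SimpleGraph V} {F : Set (Sym2 V)} {x y : V}
    (hF : F ⊆ G.edgeSet) (h : Conn F x y) :
    ∃ p : G.Walk x y, p.IsPath ∧ ∀ e ∈ p.edges, e ∈ F := by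
  classical
  obtain ⟨w⟩ := h
  have hsub : ∀ e ∈ w.toPath.1.edges, e ∈ F := by
    intro e he
    have := w.toPath.1.edges_subset_edgeSet he
    rw [SimpleGraph.edgeSet_fromEdgeSet] at this
    exact this.1
  refine ⟨w.toPath.1.transfer G (fun e he => hF (hsub e he)), ?_, ?_⟩
  · exact w.toPath.2.transfer _
  · intro e he
    rw [SimpleGraph.Walk.edges_transfer] at he
    exact hsub e he

theorem weakImm_of_hasK {V : Type} {G : SimpleGraph V} {t : ℕ} (h : HasK G t) : WeakImm G t := by
  classical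
  obtain ⟨B, hB, F, hF1, hF2, hF3⟩ := h
  let e := (Finset.equivFinOfCardEq hB).symm
  let f : Fin t ↪ V := ⟨fun i => (e i : V), fun i j hij => e.injective (Subtype.ext hij)⟩
  have hadj : ∀ i j : Fin t, i ≠ j → (cliqueOn B).Adj (f i) (f j) := by
    intro i j hij
    exact ⟨(e i).2, (e j).2, fun h => hij (f.injective h)⟩
  have hp : ∀ i j : Fin t, ∃ p : G.Walk (f i) (f j), i ≠ j → (p.IsPath ∧
      ∀ a ∈ p.edges, a ∈ F s(f i, f j)) := by
    intro i j
    by_cases hij : i = j
    · subst hij
      exact ⟨SimpleGraph.Walk.nil, fun h => absurd rfl h⟩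
    · obtain ⟨p, h1, h2⟩ := path_of_conn (hF1 _ (hadj i j hij)) (hF3 _ _ (hadj i j hij))
      exact ⟨p, fun _ => ⟨h1, h2⟩⟩
  choose p hp using hp
  refine ⟨f, p, fun i j hij => (hp i j hij.ne).1, ?_⟩
  intro i j k l hij hkl hne a ha ha'
  have h1 := (hp i j hij.ne).2 a ha
  have h2 := (hp k l hkl.ne).2 a ha'
  have hne' : s(f i, f j) ≠ s(f k, f l) := by
    intro h
    rw [Sym2.eq_iff] at h
    rcases h with ⟨h3, h4⟩ | ⟨h3, h4⟩
    · have := f.injective h3
      have := f.injective h4
      omega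
    · have h5 := f.injective h3
      have h6 := f.injective h4
      subst h5 h6
      exact absurd hij (not_lt.2 hkl.le)
  exact Set.disjoint_left.1 (hF2 _ (hadj i j hij.ne) _ (hadj k l hkl.ne) hne') h1 h2

end Pool.Agent.Helper74.LM
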