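import Pool.Agent.Helper74.LM.MinDeg
import Pool.Agent.Helper74.LM.Kempe
import Pool.Agent.Helper74.LM.Weak

set_option autoImplicit false

/-!
# LM-Chrom: assembly of Theorem 2 (chromatic number at least `3 t - 2`)
-/

namespace Pool.Agent.Helper74.LM

open Finset

variable {V : Type} [Fintype V] [DecidableEq V]

/-- **Theorem 2.** A graph which is not `(3 t - 3)`-colourable has an immersion of the complete graph
on `t` vertices. -/
theorem hasK_of_not_colOn (G : SimpleGraph V) (t n : ℕ) (hn : 3 * t ≤ n + 3)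
    (h : ¬ ColOn G univ n) : HasK G t := by
  classical
  rcases Nat.eq_zero_or_pos t with rfl | htpos
  · refine ⟨∅, rfl, imm_of_le ?_⟩
    intro x y hxy
    exact absurd hxy.1 (by simp)
  -- a minimal set which is not colourable
  obtain ⟨U, hU, hmin⟩ : ∃ U : Finset V, ¬ ColOn G U n ∧ ∀ v ∈ U, ColOn G (U.erase v) n := by
    obtain ⟨U, hU, hmin⟩ := exists_min_image (univ.filter (fun U : Finset V => ¬ ColOn G U n)) card
      ⟨univ, by simpa using h⟩
    refine ⟨U, by simpa using hU, fun v hv => ?_⟩
    by_contra hcon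
    have := hmin (U.erase v) (by simpa using hcon)
    have h2 := card_erase_lt_of_mem hv
    omega
  have hle : restr G U ≤ G := fun x y hxy => hxy.2.2
  have hne : U.Nonempty := by
    by_contra hcon
    rw [not_nonempty_iff_eq_empty] at hcon
    subst hcon
    exact hU ⟨fun _ => 0, by simp, by simp⟩
  by_cases hdeg : ∀ v ∈ U, 5 * t ≤ (nb (restr G U) v).card + 5
  · exact HasK.of_imm (hasK_of_minDeg t (restr G U) U hne (fun x y hxy => hxy.1) hdeg)
      (imm_of_le hle)
  · push Not at hdeg
    obtain ⟨v, hv, hd⟩ := hdeg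
    have := kempe G U v n (t - 1) hv hU (hmin v hv) (by omega)
    rw [Nat.sub_add_cancel htpos] at this
    exact HasK.of_imm this (imm_of_le hle)

theorem weakImm_of_chromaticNumber {V : Type} [Fintype V] (G : SimpleGraph V) (r t : ℕ)
    (hr : G.chromaticNumber = (r : ℕ∞)) (ht : 3 * t ≤ r + 2) : WeakImm G t := by
  classical
  apply weakImm_of_hasK
  rcases Nat.eq_zero_or_pos t with rfl | htpos
  · refine ⟨∅, rfl, imm_of_le ?_⟩
    intro x y hxy
    exact absurd hxy.1 (by simp)
  apply hasK_of_not_colOn G t (r - 1) (by omega)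
  rintro ⟨c, hc1, hc2⟩
  have hcol : G.Colorable (r - 1) := by
    refine ⟨SimpleGraph.Coloring.mk (fun x => (⟨c x, hc1 x (mem_univ x)⟩ : Fin (r - 1))) ?_⟩
    intro x y hxy hcon
    exact hc2 x (mem_univ x) y (mem_univ y) hxy (by simpa using hcon)
  have := hcol.chromaticNumber_le
  rw [hr] at this
  have h2 : r ≤ r - 1 := by exact_mod_cast this
  omega

theorem weakImm_of_minDegree {V : Type} [Fintype V] [Nonempty V] (G : SimpleGraph V) (t : ℕ)
    (h : ∀ x : V, ∃ s : Finset V, 5 * t ≤ s.card + 5 ∧ ∀ y ∈ s, G.Adj x y) : WeakImm G t := by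
  classical
  apply weakImm_of_hasK
  apply hasK_of_minDeg t G univ univ_nonempty (fun x _ _ => mem_univ x)
  intro x _
  obtain ⟨s, hs, hadj⟩ := h x
  have : s.card ≤ (nb G x).card := card_le_card (fun y hy => by simpa using hadj y hy)
  omega

end Pool.Agent.Helper74.LM
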