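import Mathlib

set_option autoImplicit false

/-!
# Project LM: clique immersions from minimum degree and from the chromatic number

Definitions shared by all modules of the project (see note 1517 for the paper proof).
-/

namespace Pool.Agent.Helper74.LM

open Finset

section Basic

variable {V : Type}

/-- The set of pairs `F` connects `x` and `y`. -/
def Conn (F : Set (Sym2 V)) (x y : V) : Prop := (SimpleGraph.fromEdgeSet F).Reachable x y

/-- `H` is (weakly) immersed in `G`, the vertices keeping their names: every edge `e` of `H` is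
assigned a set `F e` of edges of `G` connecting the two ends of `e`, and the sets of different edges
are disjoint. -/
def Imm (H G : SimpleGraph V) : Prop :=
  ∃ F : Sym2 V → Set (Sym2 V),
    (∀ e ∈ H.edgeSet, F e ⊆ G.edgeSet) ∧
    (∀ e ∈ H.edgeSet, ∀ e' ∈ H.edgeSet, e ≠ e' → Disjoint (F e) (F e')) ∧
    (∀ x y, H.Adj x y → Conn (F s(x, y)) x y)

/-- The complete graph on the vertex set `B`, all other vertices being isolated. -/
def cliqueOn (B : Finset V) : SimpleGraph V where
  Adj x y := x ∈ B ∧ y ∈ B ∧ x ≠ y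
  symm := ⟨fun _ _ h => ⟨h.2.1, h.1, h.2.2.symm⟩⟩
  loopless := ⟨fun _ h => h.2.2 rfl⟩

/-- `G` has a weak immersion of the complete graph on `t` vertices. -/
def HasK (G : SimpleGraph V) (t : ℕ) : Prop := ∃ B : Finset V, B.card = t ∧ Imm (cliqueOn B) G

/-- The edges of `H` inside `K`. -/
def restr (H : SimpleGraph V) (K : Finset V) : SimpleGraph V where
  Adj x y := x ∈ K ∧ y ∈ K ∧ H.Adj x y
  symm := ⟨fun _ _ h => ⟨h.2.1, h.1, h.2.2.symm⟩⟩
  loopless := ⟨fun _ h => h.2.2.ne rfl⟩

/-- The edges of `H` avoiding `K`. -/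
def off (H : SimpleGraph V) (K : Finset V) : SimpleGraph V where
  Adj x y := x ∉ K ∧ y ∉ K ∧ H.Adj x y
  symm := ⟨fun _ _ h => ⟨h.2.1, h.1, h.2.2.symm⟩⟩
  loopless := ⟨fun _ h => h.2.2.ne rfl⟩

/-- The star with centre `k` and leaves `X` (without `k` itself). -/
def star (k : V) (X : Finset V) : SimpleGraph V where
  Adj x y := x ≠ y ∧ ((x = k ∧ y ∈ X) ∨ (y = k ∧ x ∈ X))
  symm := ⟨fun _ _ h => ⟨h.1.symm, h.2.symm⟩⟩
  loopless := ⟨fun _ h => h.1 rfl⟩

/-- The two graphs have no common edge. -/
def EDisj (G H : SimpleGraph V) : Prop := ∀ x y, G.Adj x y → ¬ H.Adj x y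

/-- `M` is a perfect matching of the complement of `J` on the vertex set `X`, as a graph on `V`. -/
structure PM (J : SimpleGraph V) (X : Finset V) (M : SimpleGraph V) : Prop where
  sub : ∀ x y, M.Adj x y → x ∈ X ∧ y ∈ X ∧ ¬ J.Adj x y
  cover : ∀ x ∈ X, ∃ y, M.Adj x y
  uniq : ∀ x y z, M.Adj x y → M.Adj x z → y = z

/-- A list `k_κ, ..., k_1` of different vertices in which every vertex but the last one of the list
is adjacent in `H` to a vertex further down the list. -/
def Tree (H : SimpleGraph V) : List V → Prop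
  | [] => True
  | k :: l => Tree H l ∧ k ∉ l ∧ (l = [] ∨ ∃ p ∈ l, H.Adj k p)

/-- `G` has a proper colouring of the vertex set `U` with the colours `0, ..., n - 1`. -/
def ColOn (G : SimpleGraph V) (U : Finset V) (n : ℕ) : Prop :=
  ∃ c : V → ℕ, (∀ x ∈ U, c x < n) ∧ ∀ x ∈ U, ∀ y ∈ U, G.Adj x y → c x ≠ c y

end Basic

section Fin

variable {V : Type} [Fintype V] [DecidableEq V]

open Classical in
/-- The neighbourhood of `x` as a finset. -/
noncomputable def nb (H : SimpleGraph V) (x : V) : Finset V := Finset.univ.filter (fun y => H.Adj x y)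

omit [DecidableEq V] in
@[simp] lemma mem_nb (H : SimpleGraph V) (x y : V) : y ∈ nb H x ↔ H.Adj x y := by
  simp [nb]

/-- `W` is missed by the `j`-th vertex from the end of the list in at most `j - 1` vertices. -/
def Miss (H : SimpleGraph V) (W : Finset V) : List V → Prop
  | [] => True
  | k :: l => (W \ nb H k).card ≤ l.length ∧ Miss H W l

/-- The class of graphs of the induction: all edges of `H` inside `A`, a root `v` of degree at least
`d - 1`, all other vertices of `A` of degree at least `d`. -/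
structure Cls (d : ℕ) (H : SimpleGraph V) (A : Finset V) (v : V) : Prop where
  inA : ∀ x y, H.Adj x y → x ∈ A
  root : v ∈ A
  degv : d ≤ (nb H v).card + 1
  deg : ∀ x ∈ A, x ≠ v → d ≤ (nb H x).card

/-- The obstruction to a (near) perfect matching of the complement of `J` on `N` that comes out of
Tutte's theorem: `R` is the union of all but a largest component of `N \ S`, the components being
the classes of the labelling `c`; `w` is an extra vertex which may be the only element of `R`. -/
structure Obs (J : SimpleGraph V) (N : Finset V) (w : Option V) (S R : Finset V) (c : V → ℕ) :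
    Prop where
  sub : ∀ r ∈ R, r ∈ N ∨ w = some r
  disj : Disjoint S R
  ne : R.Nonempty
  card : S.card ≤ (R.image c).card
  cross : ∀ r ∈ R, ∀ x ∈ R, c x ≠ c r → J.Adj r x
  star : ∀ r ∈ R, ∀ x ∈ N \ (S ∪ R), J.Adj r x
  big : ∀ a, (R.filter (fun x => c x = a)).card ≤ (N \ (S ∪ R)).card

/-- The state of the suppression of `K` after the labels in `L ⊆ K` have been processed.
`P` is a matching on the labels `k` with `(nb H k \ K).card` odd, `u k` the vertex left over by the
label `k`, `New` the graph of the new edges and `U` the graph of the used edges. -/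
structure St (H : SimpleGraph V) (K : Finset V) (P : SimpleGraph V) (L : Finset V) (u : V → V)
    (New U : SimpleGraph V) : Prop where
  LK : L ⊆ K
  imm : Imm New U
  new : ∀ x y, New.Adj x y → x ∉ K ∧ ¬ H.Adj x y ∧ ∃ k ∈ L, H.Adj k x
  deg : ∀ x, x ∉ K → (nb New x).card = (nb U x).card
  used : ∀ x, x ∉ K → ∀ j, U.Adj j x ↔
    (j ∈ L ∧ H.Adj j x ∧ ¬ (Odd (nb H j \ K).card ∧ (∀ i ∈ L, ¬ P.Adj j i) ∧ x = u j))
  usedK : ∀ i ∈ K, ∀ j ∈ K, U.Adj i j → P.Adj i j ∧ i ∈ L ∧ j ∈ L
  left : ∀ j ∈ L, Odd (nb H j \ K).card → u j ∈ nb H j \ K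

/-- The outcome of a failed suppression of `K`. -/
structure Fail (H : SimpleGraph V) (K W : Finset V) (n : ℕ) (J : SimpleGraph V) (S R C : Finset V)
    (c : V → ℕ) : Prop where
  imm : Imm J H
  notK : ∀ r ∈ R, r ∉ K
  par : ∀ r ∈ R, ∃ p ∈ K, H.Adj r p
  ne : R.Nonempty
  card : S.card ≤ (R.image c).card
  cross : ∀ r ∈ R, ∀ x ∈ R, c x ≠ c r → J.Adj r x
  star : ∀ r ∈ R, ∀ x ∈ C, J.Adj r x
  big : ∀ a, (R.filter (fun x => c x = a)).card ≤ C.card
  miss : ∀ r ∈ R, ((W \ (S ∪ R.filter (fun x => c x = c r))) \ nb H r).card ≤ n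

end Fin

end Pool.Agent.Helper74.LM
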