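import Pool.Agent.Helper74.LM.Basic

set_option autoImplicit false

/-!
# LM-StImm: consequences of a state

`st_imm`: let `B` be the graph of the edges of `H` with exactly one end in `K`.  Then
`off H K ⊔ New` is immersed in `off H K ⊔ U` (`imm_sup`, `New` and `off H K` have no common edge by field
`new`, `U` and `off H K` have none because every edge of `U` has an end in `L ⊆ K`, field `used`),
`U ≤ B ⊔ P'` where `P' = P` restricted to `K`, i.e. `U ≤ B ⊔ restr P K` (fields `used`, `usedK`), and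
`off H K ⊔ (B ⊔ restr P K)` is immersed in `off H K ⊔ (B ⊔ restr H K) = H` by `imm_sup` since
`restr P K ≤ P` is immersed in `restr H K`.

`st_new_card`: for `x ∉ K`, the number of new edges at `x` equals the number of used edges at `x`, and
these go to different vertices of `L`: `(nb New x).card = (nb U x).card ≤ L.card`.

`st_deg`: for `x ∉ K` the degree of `x` in `off H K ⊔ New` is
`(nb H x \ K).card + (nb U x).card` and, if `L = K`,
`nb U x = {j ∈ K | H.Adj j x ∧ ¬ (unresolved j ∧ x = u j)}` contains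
`(nb H x ∩ K) \ {z}` and even `nb H x ∩ K` if `x ≠ u z`: an unresolved label of `K` must be `z`.
-/

namespace Pool.Agent.Helper74.LM

open Finset

variable {V : Type} [Fintype V] [DecidableEq V]

/-- The edges of `H` with exactly one end in `K`. -/
private def btw (H : SimpleGraph V) (K : Finset V) : SimpleGraph V where
  Adj x y := H.Adj x y ∧ ((x ∈ K ∧ y ∉ K) ∨ (y ∈ K ∧ x ∉ K))
  symm := ⟨fun _ _ h => ⟨h.1.symm, h.2.symm⟩⟩
  loopless := ⟨fun _ h => h.1.ne rfl⟩

theorem st_imm (H : SimpleGraph V) (K : Finset V) (P : SimpleGraph V) (L : Finset V) (u : V → V)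
    (New U : SimpleGraph V) (hs : St H K P L u New U) (hP : Imm P (restr H K)) :
    Imm (off H K ⊔ New) H := by
  have h1 : Imm (off H K ⊔ New) (off H K ⊔ U) := by
    refine imm_sup (imm_of_le le_rfl) hs.imm ?_ ?_
    · intro x y hxy hN
      exact (hs.new x y hN).2.1 hxy.2.2
    · intro x y hxy hU
      have := (hs.used y hxy.2.1 x).1 hU
      exact hxy.1 (hs.LK this.1)
  have h2 : Imm (off H K ⊔ U) (off H K ⊔ (btw H K ⊔ restr P K)) := by
    apply imm_of_le
    apply sup_le_sup le_rfl
    intro x y hxy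
    by_cases hx : x ∈ K
    · by_cases hy : y ∈ K
      · exact Or.inr ⟨hx, hy, (hs.usedK x hx y hy hxy).1⟩
      · have := (hs.used y hy x).1 hxy
        exact Or.inl ⟨this.2.1, Or.inl ⟨hx, hy⟩⟩
    · have := (hs.used x hx y).1 hxy.symm
      exact Or.inl ⟨this.2.1.symm, Or.inr ⟨hs.LK this.1, hx⟩⟩
  have h3 : Imm (off H K ⊔ (btw H K ⊔ restr P K)) (off H K ⊔ (btw H K ⊔ restr H K)) := by
    refine imm_sup (imm_of_le le_rfl) ?_ ?_ ?_
    · refine imm_sup (imm_of_le le_rfl) (imm_trans (imm_of_le ?_) hP) ?_ ?_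
      · intro x y hxy
        exact hxy.2.2
      · rintro x y ⟨_, ⟨hx, hy⟩ | ⟨hy, hx⟩⟩ h
        · exact hy h.2.1
        · exact hx h.1
      · rintro x y ⟨_, ⟨hx, hy⟩ | ⟨hy, hx⟩⟩ h
        · exact hy h.2.1
        · exact hx h.1
    · rintro x y hxy (⟨_, ⟨hx, hy⟩ | ⟨hy, hx⟩⟩ | h)
      · exact hxy.1 hx
      · exact hxy.2.1 hy
      · exact hxy.1 h.1
    · rintro x y hxy (⟨_, ⟨hx, hy⟩ | ⟨hy, hx⟩⟩ | h)
      · exact hxy.1 hx
      · exact hxy.2.1 hy
      · exact hxy.1 h.1
  have h4 : off H K ⊔ (btw H K ⊔ restr H K) ≤ H := by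
    rintro x y (h | h | h)
    · exact h.2.2
    · exact h.1
    · exact h.2.2
  exact imm_trans (imm_trans (imm_trans h1 h2) h3) (imm_of_le h4)

theorem st_new_card (H : SimpleGraph V) (K : Finset V) (P : SimpleGraph V) (L : Finset V)
    (u : V → V) (New U : SimpleGraph V) (hs : St H K P L u New U) (x : V) (hx : x ∉ K) :
    (nb New x).card ≤ L.card := by
  rw [hs.deg x hx]
  apply card_le_card
  intro y hy
  rw [mem_nb] at hy
  exact ((hs.used x hx y).1 hy.symm).1

theorem st_deg (H : SimpleGraph V) (K : Finset V) (P : SimpleGraph V) (u : V → V)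
    (New U : SimpleGraph V) (hs : St H K P K u New U) (z : V)
    (hz : ∀ x ∈ K, Odd (nb H x \ K).card → x ≠ z → ∃ y ∈ K, P.Adj x y) (x : V) (hx : x ∉ K) :
    (nb H x).card ≤ (nb (off H K ⊔ New) x).card + 1 ∧
      (x ≠ u z → (nb H x).card ≤ (nb (off H K ⊔ New) x).card) := by
  have hd : EDisj (off H K) New := by
    intro a b hab hN
    exact (hs.new a b hN).2.1 hab.2.2
  have h1 : (nb (off H K ⊔ New) x).card = (nb (off H K) x).card + (nb New x).card :=
    card_nb_sup hd x
  have h2 : nb (off H K) x = nb H x \ K := by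
    ext y
    simp only [mem_nb, mem_sdiff]
    constructor
    · intro h
      exact ⟨h.2.2, h.2.1⟩
    · intro h
      exact ⟨hx, h.2, h.1⟩
  have h3 : (nb H x).card = (nb H x \ K).card + (nb H x ∩ K).card :=
    (card_sdiff_add_card_inter _ _).symm
  have hmem : ∀ j ∈ nb H x ∩ K, ¬ (j = z ∧ x = u z) → j ∈ nb U x := by
    intro j hj hne
    rw [mem_inter, mem_nb] at hj
    rw [mem_nb]
    apply SimpleGraph.Adj.symm
    rw [hs.used x hx j]
    refine ⟨hj.2, hj.1.symm, ?_⟩
    rintro ⟨hodd, hfree, hxu⟩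
    by_cases hjz : j = z
    · exact hne ⟨hjz, by rw [← hjz]; exact hxu⟩
    · obtain ⟨y, hy, hP⟩ := hz j hj.2 hodd hjz
      exact hfree y hy hP
  have hdeg := hs.deg x hx
  constructor
  · have : nb H x ∩ K ⊆ insert z (nb U x) := by
      intro j hj
      by_cases hjz : j = z
      · exact mem_insert.2 (Or.inl hjz)
      · exact mem_insert.2 (Or.inr (hmem j hj (fun h => hjz h.1)))
    have h4 := (card_le_card this).trans (card_insert_le _ _)
    rw [h1, h2]
    omega
  · intro hxz
    have : nb H x ∩ K ⊆ nb U x := fun j hj => hmem j hj (fun h => hxz h.2)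
    have h4 := card_le_card this
    rw [h1, h2]
    omega

end Pool.Agent.Helper74.LM
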