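import Pool.Agent.Helper74.LM.Basic

set_option autoImplicit false

/-!
# LM-TJoin: pairing up an arbitrary set of vertices of a connected graph by edge-disjoint paths

PROOF by induction on the list `l`.  For `l = [v]` take `P = ⊥` and `z = v`.  Let `l = k :: l'`,
`l' ≠ []`, and `p ∈ l'` with `H.Adj k p` (from `Tree`).

* `k ∉ O`: the induction hypothesis for `l'` and `O`.
* `k ∈ O`, `p ∈ O`: apply the induction hypothesis to `O' = O \ {k, p}` and add to `P` the edge
  `k p`, routed by the edge `k p` of `H`.
* `k ∈ O`, `p ∉ O`: apply the induction hypothesis to `O' = insert p (O \ {k})`.  If `p` has a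
  `P'`-neighbour `q`, replace the edge `p q` of `P'` by the edge `k q`, routed by
  `F s(p, q) ∪ {s(k, p)}`.  If `p` has no `P'`-neighbour then `p` is the exceptional vertex `z`, and
  we take `P = P'`, `z = k`.

In all cases the edge `k p` is not an edge of `restr H l'.toFinset`, hence disjoint from all the sets
used before (`k ∉ l'`).  It may be convenient to use `imm_sup`, `imm_trans`, `imm_of_le` of
`Basic.lean`: in the third case `P = (P' minus the edge pq) + kq`; it is immersed in
`P' ⊔ (single edge kp)`, which is immersed in `restr H (k :: l').toFinset`.
-/

namespace Pool.Agent.Helper74.LM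

open Finset

private lemma star_single_adj {V : Type} {k p x y : V} :
    (star k {p}).Adj x y ↔ x ≠ y ∧ ((x = k ∧ y = p) ∨ (y = k ∧ x = p)) := by
  simp [star]

private lemma imm_path {V : Type} {k p q : V} (hkp : k ≠ p) (hpq : p ≠ q) :
    Imm (star k {q}) (star p {q} ⊔ star k {p}) := by
  have hone : ∀ e ∈ (star k {q}).edgeSet, e = s(k, q) := by
    intro e
    induction e using Sym2.ind with
    | _ x y =>
      intro he
      rw [SimpleGraph.mem_edgeSet, star_single_adj] at he
      rcases he.2 with ⟨rfl, rfl⟩ | ⟨rfl, rfl⟩
      · rfl
      · exact Sym2.eq_swap
  refine ⟨fun _ => {s(p, q), s(k, p)}, ?_, ?_, ?_⟩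
  · intro e _ f hf
    rw [Set.mem_insert_iff, Set.mem_singleton_iff] at hf
    rcases hf with rfl | rfl
    · rw [SimpleGraph.mem_edgeSet]
      exact Or.inl (star_single_adj.2 ⟨hpq, Or.inl ⟨rfl, rfl⟩⟩)
    · rw [SimpleGraph.mem_edgeSet]
      exact Or.inr (star_single_adj.2 ⟨hkp, Or.inl ⟨rfl, rfl⟩⟩)
  · intro e he e' he' hne
    exact absurd ((hone e he).trans (hone e' he').symm) hne
  · intro x y hxy
    rw [star_single_adj] at hxy
    have h1 : Conn ({s(p, q), s(k, p)} : Set (Sym2 V)) k q :=
      (Conn.of_mem hkp (by simp)).trans (Conn.of_mem hpq (by simp))
    rcases hxy.2 with ⟨rfl, rfl⟩ | ⟨rfl, rfl⟩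
    · exact h1
    · exact h1.symm

theorem tjoin {V : Type} [DecidableEq V] (H : SimpleGraph V) (l : List V) (hl : Tree H l)
    (hne : l ≠ []) (O : Finset V) (hO : ∀ x ∈ O, x ∈ l) :
    ∃ P : SimpleGraph V, Imm P (restr H l.toFinset) ∧ (∀ x y, P.Adj x y → x ∈ O) ∧
      (∀ x y z, P.Adj x y → P.Adj x z → y = z) ∧
      ∃ z : V, ∀ x ∈ O, x ≠ z → ∃ y, P.Adj x y := by
  induction l generalizing O with
  | nil => exact absurd rfl hne
  | cons k l' ih =>
    obtain ⟨hT, hk, hp⟩ := hl
    rcases hp with hnil | ⟨p, hpl, hadj⟩
    · subst hnil
      refine ⟨⊥, imm_bot _, ?_, ?_, k, ?_⟩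
      · intro x y h; exact absurd h (by simp)
      · intro x y z h; exact absurd h (by simp)
      · intro x hx hne
        have := hO x hx
        simp only [List.mem_cons, List.not_mem_nil, or_false] at this
        exact absurd this hne
    · have hne' : l' ≠ [] := by rintro rfl; simp at hpl
      have hkp : k ≠ p := by rintro rfl; exact hk hpl
      have hle1 : restr H l'.toFinset ≤ restr H (k :: l').toFinset := by
        intro x y h
        exact ⟨by simp only [List.toFinset_cons, mem_insert]; exact Or.inr h.1,
          by simp only [List.toFinset_cons, mem_insert]; exact Or.inr h.2.1, h.2.2⟩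
      have hle2 : restr H l'.toFinset ⊔ star k {p} ≤ restr H (k :: l').toFinset := by
        apply sup_le hle1
        intro x y h
        rw [star_single_adj] at h
        have hp2 : p ∈ (k :: l').toFinset := by simp [hpl]
        have hk2 : k ∈ (k :: l').toFinset := by simp
        rcases h.2 with ⟨rfl, rfl⟩ | ⟨rfl, rfl⟩
        · exact ⟨hk2, hp2, hadj⟩
        · exact ⟨hp2, hk2, hadj.symm⟩
      have hdis : EDisj (restr H l'.toFinset) (star k {p}) := by
        intro x y h h2
        rw [star_single_adj] at h2
        rcases h2.2 with ⟨rfl, rfl⟩ | ⟨rfl, rfl⟩
        · exact hk (by simpa using h.1)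
        · exact hk (by simpa using h.2.1)
      by_cases hkO : k ∈ O
      · by_cases hpO : p ∈ O
        · -- case 2
          obtain ⟨P', hI, hend, huni, z, hz⟩ := ih hT hne' ((O.erase k).erase p) (by
            intro x hx
            simp only [mem_erase] at hx
            have := hO x hx.2.2
            rw [List.mem_cons] at this
            exact this.resolve_left hx.2.1)
          refine ⟨P' ⊔ star k {p}, ?_, ?_, ?_, z, ?_⟩
          · refine imm_trans (imm_sup hI (imm_of_le le_rfl) ?_ hdis) (imm_of_le hle2)
            intro x y h h2
            have h3 := hend x y h
            simp only [mem_erase] at h3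
            rw [star_single_adj] at h2
            rcases h2.2 with ⟨rfl, rfl⟩ | ⟨rfl, rfl⟩
            · exact h3.2.1 rfl
            · exact h3.1 rfl
          · rintro x y (h | h)
            · have h3 := hend x y h
              simp only [mem_erase] at h3
              exact h3.2.2
            · rw [star_single_adj] at h
              rcases h.2 with ⟨rfl, rfl⟩ | ⟨rfl, rfl⟩
              · exact hkO
              · exact hpO
          · rintro x y w (h | h) (h' | h')
            · exact huni x y w h h'
            · have h3 := hend x y h
              simp only [mem_erase] at h3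
              rw [star_single_adj] at h'
              rcases h'.2 with ⟨rfl, rfl⟩ | ⟨rfl, rfl⟩
              · exact absurd rfl h3.2.1
              · exact absurd rfl h3.1
            · have h3 := hend x w h'
              simp only [mem_erase] at h3
              rw [star_single_adj] at h
              rcases h.2 with ⟨rfl, rfl⟩ | ⟨rfl, rfl⟩
              · exact absurd rfl h3.2.1
              · exact absurd rfl h3.1
            · rw [star_single_adj] at h h'
              rcases h.2 with ⟨h1, h2⟩ | ⟨h1, h2⟩ <;> rcases h'.2 with ⟨h3, h4⟩ | ⟨h3, h4⟩
              · rw [h2, h4]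
              · exact absurd (h1.symm.trans h4) hkp
              · exact absurd (h3.symm.trans h2) hkp
              · rw [h1, h3]
          · intro x hx hxz
            by_cases h1 : x = k
            · exact ⟨p, Or.inr (star_single_adj.2 ⟨by rw [h1]; exact hkp, Or.inl ⟨h1, rfl⟩⟩)⟩
            · by_cases h2 : x = p
              · exact ⟨k, Or.inr (star_single_adj.2 ⟨by rw [h2]; exact hkp.symm, Or.inr ⟨rfl, h2⟩⟩)⟩
              · obtain ⟨y, hy⟩ := hz x (by simp [h1, h2, hx]) hxz
                exact ⟨y, Or.inl hy⟩
        · -- case 3
          have hkO' : k ∉ insert p (O.erase k) := by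
            simp only [mem_insert, mem_erase, ne_eq, not_true_eq_false, false_and, or_false]
            exact hkp
          obtain ⟨P', hI, hend, huni, z, hz⟩ := ih hT hne' (insert p (O.erase k)) (by
            intro x hx
            simp only [mem_insert, mem_erase] at hx
            rcases hx with rfl | hx
            · exact hpl
            · have := hO x hx.2
              rw [List.mem_cons] at this
              exact this.resolve_left hx.1)
          by_cases hq : ∃ q, P'.Adj p q
          · obtain ⟨q, hq⟩ := hq
            have hpq : p ≠ q := hq.ne
            have hqO' := hend q p hq.symm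
            have hqk : q ≠ k := by rintro rfl; exact hkO' hqO'
            have hqO : q ∈ O := by
              simp only [mem_insert, mem_erase] at hqO'
              exact (hqO'.resolve_left hpq.symm).2
            let P2 : SimpleGraph V :=
              { Adj := fun x y => P'.Adj x y ∧ x ≠ p ∧ y ≠ p
                symm := ⟨fun _ _ h => ⟨h.1.symm, h.2.2, h.2.1⟩⟩
                loopless := ⟨fun _ h => h.1.ne rfl⟩ }
            have hP2 : ∀ x y, P2.Adj x y ↔ P'.Adj x y ∧ x ≠ p ∧ y ≠ p := fun _ _ => Iff.rfl
            have hnk : ∀ x y, P'.Adj x y → x ≠ k ∧ y ≠ k := by
              intro x y h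
              constructor
              · rintro rfl; exact hkO' (hend _ _ h)
              · rintro rfl; exact hkO' (hend _ _ h.symm)
            refine ⟨P2 ⊔ star k {q}, ?_, ?_, ?_, z, ?_⟩
            · have i1 : Imm (P2 ⊔ star k {q}) (P2 ⊔ (star p {q} ⊔ star k {p})) := by
                apply imm_sup (imm_of_le le_rfl) (imm_path hkp hpq)
                · intro x y h h2
                  rw [star_single_adj] at h2
                  rw [hP2] at h
                  have := hnk x y h.1
                  rcases h2.2 with ⟨h3, h4⟩ | ⟨h3, h4⟩
                  · exact this.1 h3
                  · exact this.2 h3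
                · rintro x y h (h2 | h2)
                  · rw [star_single_adj] at h2
                    rw [hP2] at h
                    rcases h2.2 with ⟨h3, h4⟩ | ⟨h3, h4⟩
                    · exact h.2.1 h3
                    · exact h.2.2 h3
                  · rw [star_single_adj] at h2
                    rw [hP2] at h
                    rcases h2.2 with ⟨h3, h4⟩ | ⟨h3, h4⟩
                    · exact h.2.2 h4
                    · exact h.2.1 h4
              have i2 : P2 ⊔ (star p {q} ⊔ star k {p}) ≤ P' ⊔ star k {p} := by
                apply sup_le
                · intro x y h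
                  exact Or.inl h.1
                · apply sup_le
                  · intro x y h
                    rw [star_single_adj] at h
                    left
                    rcases h.2 with ⟨h3, h4⟩ | ⟨h3, h4⟩
                    · rw [h3, h4]; exact hq
                    · rw [h3, h4]; exact hq.symm
                  · exact le_sup_right
              have i3 : Imm (P' ⊔ star k {p}) (restr H l'.toFinset ⊔ star k {p}) := by
                apply imm_sup hI (imm_of_le le_rfl) _ hdis
                intro x y h h2
                rw [star_single_adj] at h2
                have := hnk x y h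
                rcases h2.2 with ⟨h3, h4⟩ | ⟨h3, h4⟩
                · exact this.1 h3
                · exact this.2 h3
              exact imm_trans i1 (imm_trans (imm_of_le i2) (imm_trans i3 (imm_of_le hle2)))
            · rintro x y (h | h)
              · rw [hP2] at h
                have h3 := hend x y h.1
                simp only [mem_insert, mem_erase] at h3
                exact (h3.resolve_left h.2.1).2
              · rw [star_single_adj] at h
                rcases h.2 with ⟨h3, h4⟩ | ⟨h3, h4⟩
                · rw [h3]; exact hkO
                · rw [h4]; exact hqO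
            · have hmix : ∀ x y w, P2.Adj x y → (star k {q}).Adj x w → False := by
                intro x y w h h'
                rw [hP2] at h
                rw [star_single_adj] at h'
                rcases h'.2 with ⟨h3, h4⟩ | ⟨h3, h4⟩
                · exact (hnk x y h.1).1 h3
                · rw [h4] at h
                  exact h.2.2 (huni q y p h.1 hq.symm)
              rintro x y w (h | h) (h' | h')
              · exact huni x y w h.1 h'.1
              · exact absurd h' (fun h' => hmix x y w h h')
              · exact absurd h (fun h => hmix x w y h' h)
              · rw [star_single_adj] at h h'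
                rcases h.2 with ⟨h1, h2⟩ | ⟨h1, h2⟩ <;> rcases h'.2 with ⟨h3, h4⟩ | ⟨h3, h4⟩
                · rw [h2, h4]
                · exact absurd (h4.symm.trans h1) hqk
                · exact absurd (h2.symm.trans h3) hqk
                · rw [h1, h3]
            · intro x hx hxz
              by_cases h1 : x = k
              · exact ⟨q, Or.inr (star_single_adj.2 ⟨by rw [h1]; exact hqk.symm, Or.inl ⟨h1, rfl⟩⟩)⟩
              · by_cases h2 : x = q
                · exact ⟨k, Or.inr (star_single_adj.2 ⟨by rw [h2]; exact hqk, Or.inr ⟨rfl, h2⟩⟩)⟩
                · obtain ⟨y, hy⟩ := hz x (by simp [h1, hx]) hxz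
                  have hxp : x ≠ p := by rintro rfl; exact hpO hx
                  refine ⟨y, Or.inl ⟨hy, hxp, ?_⟩⟩
                  rintro rfl
                  exact h2 (huni y x q hy.symm hq)
          · push Not at hq
            have hzp : z = p := by
              by_contra hc
              obtain ⟨y, hy⟩ := hz p (mem_insert_self _ _) (Ne.symm hc)
              exact hq y hy
            refine ⟨P', imm_trans hI (imm_of_le hle1), ?_, huni, k, ?_⟩
            · intro x y h
              have h3 := hend x y h
              simp only [mem_insert, mem_erase] at h3
              rcases h3 with rfl | h3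
              · exact absurd h (hq y)
              · exact h3.2
            · intro x hx hxk
              have hxp : x ≠ z := by rw [hzp]; rintro rfl; exact hpO hx
              exact hz x (by simp [hxk, hx]) hxp
      · obtain ⟨P', hI, hend, huni, z, hz⟩ := ih hT hne' O (by
          intro x hx
          have := hO x hx
          rw [List.mem_cons] at this
          refine this.resolve_left ?_
          rintro rfl
          exact hkO hx)
        exact ⟨P', imm_trans hI (imm_of_le hle1), hend, huni, z, hz⟩

end Pool.Agent.Helper74.LM
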