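import Pool.Agent.Helper74.LM.Process
import Pool.Agent.Helper74.LM.StImm
import Pool.Agent.Helper74.LM.TJoin

set_option autoImplicit false

/-!
# LM-Dich: either `K` can be suppressed or there is a `Fail`

Let `K = l.toFinset`, `O = {k ∈ K | Odd (nb H k \ K).card}`, `P`, `z` from `tjoin`.  Apply `process`.

SUCCESS: `H' = off H K ⊔ New`, immersed in `H` by `st_imm`.  `A' = A \ K`.  Root: if `u z ∈ A \ K`
then `v' = u z`, otherwise any element of `A \ K` (nonempty because of `hW`: `W ⊆ A \ K` is nonempty).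
Degrees by `st_deg` and `Cls` (all vertices of `A \ K` are different from `v` since `v ∈ K`).
`inA` for `H'`: an edge of `H'` at `x` is an edge of `H` or a new edge; in both cases `x ∉ K` and `x` has
an `H`-neighbour (field `new`), so `x ∈ A`.

FAILURE: `J = off H K ⊔ New`, `N = nb H k \ K`, `C = N \ (S ∪ R)`.  `Fail`:
`imm`: `st_imm`.  `notK`, `par`: `r ∈ N` is adjacent to `k ∈ K`; `r = w` by the last clause of `process`.
`ne, card, cross, star, big`: from `Obs`.
`miss`: let `r ∈ R` and `x ∈ W`, `x ∉ S`, not (`x ∈ R` and `c x = c r`), `¬ H.Adj r x`.  If `x ∉ nb H k`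
then `x ∈ W \ nb H k`, at most `l2.length` possibilities by `Miss` (the suffix `k :: l2`).  Otherwise
`x ∈ N` (`x ∉ K` as `W` is disjoint from `K`), so `x ∈ R` with `c x ≠ c r`, or `x ∈ N \ (S ∪ R)`; in both
cases `J.Adj r x`, and since `¬ H.Adj r x`, `x ∈ nb New r`: at most `l1.length` possibilities by
`st_new_card`.  Total `l1.length + l2.length = l.length - 1`.

The hypothesis `h2` of `process`: `nb H k \ K ⊇ W ∩ nb H k` (since `W` is disjoint from `K`) has at least
`W.card - (l.length - 1) ≥ 2` elements, by `Miss` and `hbig`.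
-/

namespace Pool.Agent.Helper74.LM

open Finset

variable {V : Type} [Fintype V] [DecidableEq V]

/-- For every vertex `k` of the list: `W` is missed by `k` in at most `l.length - 1` vertices; more
precisely at most the length of the suffix after `k`. -/
theorem Miss.split {H : SimpleGraph V} {W : Finset V} (l1 : List V) (k : V) (l2 : List V)
    (h : Miss H W (l1 ++ k :: l2)) : (W \ nb H k).card ≤ l2.length := by
  induction l1 with
  | nil => exact h.1
  | cons a l1 ih => exact ih h.2

theorem dich (d : ℕ) (H : SimpleGraph V) (A : Finset V) (v : V) (hA : Cls d H A v)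
    (l : List V) (hl : Tree H l) (hv : v ∈ l) (W : Finset V) (hW : W ⊆ A)
    (hWl : ∀ x ∈ l, x ∉ W) (hm : Miss H W l) (hbig : l.length + 1 ≤ W.card) :
    (∃ (H' : SimpleGraph V) (v' : V), Imm H' H ∧ Cls d H' (A \ l.toFinset) v') ∨
      ∃ J S R C c, Fail H l.toFinset W (l.length - 1) J S R C c := by
  classical
  have hWK : ∀ x ∈ W, x ∉ l.toFinset := by
    intro x hx hxl
    exact hWl x (List.mem_toFinset.1 hxl) hx
  have hne : l ≠ [] := by
    rintro rfl
    simp at hv
  have hvK : v ∈ l.toFinset := List.mem_toFinset.2 hv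
  obtain ⟨P, hPimm, hPO, hPu, z, hz⟩ := tjoin H l hl hne
    (l.toFinset.filter (fun k => Odd (nb H k \ l.toFinset).card)) (by
      intro x hx
      exact List.mem_toFinset.1 (mem_filter.1 hx).1)
  have hP : ∀ x y, P.Adj x y → x ∈ l.toFinset ∧ Odd (nb H x \ l.toFinset).card := by
    intro x y hxy
    exact mem_filter.1 (hPO x y hxy)
  have h2 : ∀ k ∈ l, 2 ≤ (nb H k \ l.toFinset).card := by
    intro k hk
    obtain ⟨l1, l2, rfl⟩ := List.append_of_mem hk
    have h1 := Miss.split l1 k l2 hm
    have h3 : (W ∩ nb H k).card ≤ (nb H k \ (l1 ++ k :: l2).toFinset).card := by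
      apply card_le_card
      intro x hx
      rw [mem_inter] at hx
      rw [mem_sdiff]
      exact ⟨hx.2, hWK x hx.1⟩
    have h4 := card_sdiff_add_card_inter W (nb H k)
    simp only [List.length_append, List.length_cons] at hbig
    omega
  rcases process H l hl.nodup P hP hPu h2 with ⟨u, New, U, hs⟩ | ⟨l1, k, l2, hlk, u, New, U, hs, w, S,
    R, c, hobs, hw⟩
  · left
    have himm := st_imm H l.toFinset P l.toFinset u New U hs hPimm
    have hdeg := st_deg H l.toFinset P u New U hs z (by
      intro x hx hodd hxz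
      obtain ⟨y, hy⟩ := hz x (mem_filter.2 ⟨hx, hodd⟩) hxz
      exact ⟨y, (hP y x hy.symm).1, hy⟩)
    have hWne : W.Nonempty := by
      rw [← card_pos]
      omega
    obtain ⟨w0, hw0⟩ := hWne
    have hex : ∃ v' ∈ A \ l.toFinset, ∀ x ∈ A \ l.toFinset, x ≠ v' → x ≠ u z := by
      by_cases hu : u z ∈ A \ l.toFinset
      · exact ⟨u z, hu, fun x _ hx => hx⟩
      · refine ⟨w0, mem_sdiff.2 ⟨hW hw0, hWK w0 hw0⟩, ?_⟩
        intro x hx _ hxu
        exact hu (hxu ▸ hx)
    obtain ⟨v', hv', hv'u⟩ := hex
    have hdH : ∀ x ∈ A \ l.toFinset, d ≤ (nb H x).card := by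
      intro x hx
      rw [mem_sdiff] at hx
      apply hA.deg x hx.1
      rintro rfl
      exact hx.2 hvK
    refine ⟨off H l.toFinset ⊔ New, v', himm, ?_, hv', ?_, ?_⟩
    · intro x y hxy
      rw [mem_sdiff]
      rcases hxy with hxy | hxy
      · exact ⟨hA.inA x y hxy.2.2, hxy.1⟩
      · obtain ⟨h1, _, q, _, hq⟩ := hs.new x y hxy
        exact ⟨hA.inA x q hq.symm, h1⟩
    · have h1 := hdH v' hv'
      have h3 := (hdeg v' (mem_sdiff.1 hv').2).1
      omega
    · intro x hx hxv
      have h1 := hdH x hx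
      have h3 := (hdeg x (mem_sdiff.1 hx).2).2 (hv'u x hx hxv)
      omega
  · right
    have himm := st_imm H l.toFinset P l1.toFinset u New U hs hPimm
    have hkl : k ∈ l := by
      rw [hlk]
      simp
    have hRK : ∀ r ∈ R, r ∉ l.toFinset ∧ ∃ p ∈ l.toFinset, H.Adj r p := by
      intro r hr
      rcases hobs.sub r hr with h1 | h1
      · rw [mem_sdiff, mem_nb] at h1
        exact ⟨h1.2, k, List.mem_toFinset.2 hkl, h1.1.symm⟩
      · obtain ⟨h3, j, hj, hjr⟩ := hw r h1
        refine ⟨h3, j, ?_, hjr.symm⟩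
        rw [List.mem_toFinset, hlk]
        exact List.mem_append_left _ hj
    refine ⟨off H l.toFinset ⊔ New, S, R, (nb H k \ l.toFinset) \ (S ∪ R), c, ?_⟩
    refine ⟨himm, fun r hr => (hRK r hr).1, fun r hr => (hRK r hr).2, hobs.ne, hobs.card,
      hobs.cross, hobs.star, hobs.big, ?_⟩
    intro r hr
    have hsub : (W \ (S ∪ R.filter (fun x => c x = c r))) \ nb H r ⊆ (W \ nb H k) ∪ nb New r := by
      intro x hx
      rw [mem_sdiff, mem_sdiff, mem_union, mem_filter, mem_nb] at hx
      obtain ⟨⟨hxW, hxn⟩, hxr⟩ := hx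
      have hxS : x ∉ S := fun h => hxn (Or.inl h)
      rw [mem_union, mem_sdiff, mem_nb, mem_nb]
      by_cases hxk : H.Adj k x
      · right
        have hxN : x ∈ nb H k \ l.toFinset := by
          rw [mem_sdiff, mem_nb]
          exact ⟨hxk, hWK x hxW⟩
        have hJ : (off H l.toFinset ⊔ New).Adj r x := by
          by_cases hxR : x ∈ R
          · apply hobs.cross r hr x hxR
            intro hc
            exact hxn (Or.inr ⟨hxR, hc⟩)
          · apply hobs.star r hr x
            rw [mem_sdiff, mem_union]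
            exact ⟨hxN, fun h => h.elim hxS hxR⟩
        rcases hJ with hJ | hJ
        · exact absurd hJ.2.2 hxr
        · exact hJ
      · left
        exact ⟨hxW, hxk⟩
    have h1 := Miss.split l1 k l2 (hlk ▸ hm)
    have h3 := st_new_card H l.toFinset P l1.toFinset u New U hs r (hRK r hr).1
    have h4 := card_le_card hsub
    have h5 := card_union_le (W \ nb H k) (nb New r)
    have h6 := List.toFinset_card_le l1
    have h7 : l.length = l1.length + (l2.length + 1) := by
      rw [hlk]
      simp
    omega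

end Pool.Agent.Helper74.LM
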