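import Pool.Agent.Helper74.LM.Routes

set_option autoImplicit false

/-!
# LM-Greedy: the greedy edge colouring (Lemma C)

`Miss G W l` says: the vertex `k` of `l` with `s` vertices after it in the list misses (is not adjacent
to) at most `s` vertices of `W`.  CLAIM (to be proved by induction on the list): let `l` be a nodup
list of length `m ≤ t`, `Miss G W l`, `2 t ≤ W.card + 2`, and `U : V → Finset V` with
`(U k).card ≤ t - m` for all `k ∈ l`.  Then there is a symmetric `w : V → V → V` such that for all
different `x, y ∈ l`: `w x y ∈ W`, `w x y ∈ nb G x`, `w x y ∈ nb G y`, `w x y ∉ U x`, `w x y ∉ U y`,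
and for all pairwise different `x, y, z ∈ l`: `w x y ≠ w x z`.

Induction step, `l = k :: l'`, `m = l'.length + 1`.  First choose `g : V → V` such that for `y ∈ l'`:
`g y ∈ W ∩ nb G k ∩ nb G y`, `g y ∉ U k ∪ U y` and `g` is injective on `l'`.  This is a second
induction, on the suffixes of `l'`, the head of `l'` being chosen first (keep a set `D` of the
values chosen so far, `D.card + (length of the suffix) ≤ m - 1`): for `y` with `s` vertices after it in
`l'` the number of admissible values is at least
`|W| - (m - 1) - s - |U k| - |U y| - |D| ≥ (2 t - 2) - (m - 1) - s - 2 (t - m) - (m - 1 - (s + 1)) = 1`.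
Then apply the induction hypothesis to `l'` and `U' y = insert (g y) (U y)`, of size
`≤ t - m + 1 = t - l'.length`, and extend `w` by `w k y = w y k = g y`.

Finally `routes` with `B = l.toFinset`: `w x y ∈ W` is not in `B` since `W` is disjoint from `l`.
(For `x = y` or for vertices outside `l` the value of `w` is irrelevant, only symmetry is needed.)
-/

namespace Pool.Agent.Helper74.LM

open Finset

variable {V : Type} [Fintype V] [DecidableEq V]

/-- the choice of the routes of one vertex `k` -/
lemma greedy_choose (G : SimpleGraph V) (W : Finset V) (k : V) (Uk : Finset V) (U : V → Finset V)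
    (t m : ℕ) (hk : (W \ nb G k).card + 1 ≤ m) (hUk : Uk.card + m ≤ t)
    (hcard : 2 * t ≤ W.card + 2) :
    ∀ (s : List V) (D : Finset V), s.Nodup → Miss G W s → (∀ y ∈ s, (U y).card + m ≤ t) →
      D.card + s.length + 1 ≤ m →
      ∃ g : V → V, (∀ y ∈ s, g y ∈ W ∧ G.Adj k (g y) ∧ G.Adj y (g y) ∧ g y ∉ Uk ∧ g y ∉ U y ∧
        g y ∉ D) ∧ ∀ y ∈ s, ∀ z ∈ s, y ≠ z → g y ≠ g z := by
  intro s
  induction s with
  | nil =>
    intro D _ _ _ _
    exact ⟨fun y => y, by simp, by simp⟩
  | cons y s ih =>
    intro D hnd hM hU hD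
    rw [List.nodup_cons] at hnd
    have hM1 : (W \ nb G y).card ≤ s.length := hM.1
    have hM2 : Miss G W s := hM.2
    have hUy : (U y).card + m ≤ t := hU y (by simp)
    rw [List.length_cons] at hD
    have hne : (W \ ((W \ nb G k) ∪ (W \ nb G y) ∪ Uk ∪ U y ∪ D)).Nonempty := by
      rw [← Finset.card_pos]
      have h1 : ((W \ nb G k) ∪ (W \ nb G y) ∪ Uk ∪ U y ∪ D).card ≤
          (W \ nb G k).card + (W \ nb G y).card + Uk.card + (U y).card + D.card := by
        refine (card_union_le _ _).trans (Nat.add_le_add_right ?_ _)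
        refine (card_union_le _ _).trans (Nat.add_le_add_right ?_ _)
        refine (card_union_le _ _).trans (Nat.add_le_add_right ?_ _)
        exact card_union_le _ _
      have h2 := Finset.le_card_sdiff ((W \ nb G k) ∪ (W \ nb G y) ∪ Uk ∪ U y ∪ D) W
      omega
    obtain ⟨a, ha⟩ := hne
    rw [mem_sdiff] at ha
    obtain ⟨haW, ha2⟩ := ha
    simp only [mem_union, mem_sdiff, not_or, not_and, not_not] at ha2
    obtain ⟨⟨⟨⟨ha3, ha4⟩, ha5⟩, ha6⟩, ha7⟩ := ha2
    have ha3 : G.Adj k a := (mem_nb G k a).1 (ha3 haW)
    have ha4 : G.Adj y a := (mem_nb G y a).1 (ha4 haW)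
    obtain ⟨g, hg1, hg2⟩ := ih (insert a D) hnd.2 hM2 (fun z hz => hU z (List.mem_cons_of_mem _ hz))
      (by have := card_insert_le a D; omega)
    refine ⟨Function.update g y a, ?_, ?_⟩
    · intro z hz
      by_cases hzy : z = y
      · subst hzy
        rw [Function.update_self]
        exact ⟨haW, ha3, ha4, ha5, ha6, ha7⟩
      · rw [Function.update_of_ne hzy]
        have hzs : z ∈ s := (List.mem_cons.1 hz).resolve_left hzy
        obtain ⟨h1, h2, h3, h4, h5, h6⟩ := hg1 z hzs
        exact ⟨h1, h2, h3, h4, h5, fun h => h6 (mem_insert_of_mem h)⟩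
    · intro z hz z' hz' hzz
      by_cases hzy : z = y
      · subst hzy
        have hz's : z' ∈ s := (List.mem_cons.1 hz').resolve_left (fun h => hzz h.symm)
        rw [Function.update_self, Function.update_of_ne (fun h => hzz h.symm)]
        intro h
        exact (hg1 z' hz's).2.2.2.2.2 (by rw [← h]; exact mem_insert_self _ _)
      · have hzs : z ∈ s := (List.mem_cons.1 hz).resolve_left hzy
        by_cases hzy' : z' = y
        · subst hzy'
          rw [Function.update_self, Function.update_of_ne hzy]
          intro h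
          exact (hg1 z hzs).2.2.2.2.2 (by rw [h]; exact mem_insert_self _ _)
        · have hz's : z' ∈ s := (List.mem_cons.1 hz').resolve_left hzy'
          rw [Function.update_of_ne hzy, Function.update_of_ne hzy']
          exact hg2 z hzs z' hz's hzz

/-- the choice of all routes -/
lemma greedy_claim (G : SimpleGraph V) (W : Finset V) (t : ℕ) (hcard : 2 * t ≤ W.card + 2) :
    ∀ (l : List V) (U : V → Finset V), l.Nodup → l.length ≤ t → Miss G W l →
      (∀ y ∈ l, (U y).card + l.length ≤ t) →
      ∃ w : V → V → V, (∀ x y, w x y = w y x) ∧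
        (∀ x ∈ l, ∀ y ∈ l, x ≠ y → w x y ∈ W ∧ G.Adj x (w x y) ∧ G.Adj y (w x y) ∧
          w x y ∉ U x ∧ w x y ∉ U y) ∧
        ∀ x ∈ l, ∀ y ∈ l, ∀ z ∈ l, x ≠ y → x ≠ z → y ≠ z → w x y ≠ w x z := by
  intro l
  induction l with
  | nil =>
    intro U _ _ _ _
    rcases isEmpty_or_nonempty V with h | ⟨⟨v⟩⟩
    · exact ⟨fun x _ => x, fun x _ => (h.false x).elim, by simp, by simp⟩
    · exact ⟨fun _ _ => v, fun _ _ => rfl, by simp, by simp⟩
  | cons k l ih =>
    intro U hnd hlen hM hU
    rw [List.nodup_cons] at hnd
    rw [List.length_cons] at hlen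
    have hM1 : (W \ nb G k).card ≤ l.length := hM.1
    have hM2 : Miss G W l := hM.2
    obtain ⟨g, hg1, hg2⟩ := greedy_choose G W k (U k) U t (l.length + 1) (by omega)
      (by have := hU k (by simp); rw [List.length_cons] at this; exact this) hcard l ∅ hnd.2 hM2
      (by
        intro y hy
        have := hU y (List.mem_cons_of_mem _ hy)
        rw [List.length_cons] at this
        exact this) (by simp)
    obtain ⟨w, hw1, hw2, hw3⟩ := ih (fun y => insert (g y) (U y)) hnd.2 (by omega) hM2
      (by
        intro y hy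
        have h1 := hU y (List.mem_cons_of_mem _ hy)
        rw [List.length_cons] at h1
        have h2 := card_insert_le (g y) (U y)
        omega)
    have hkl : ∀ y ∈ l, y ≠ k := fun y hy h => hnd.1 (h ▸ hy)
    refine ⟨fun x y => if x = k then g y else if y = k then g x else w x y, ?_, ?_, ?_⟩
    · intro x y
      by_cases hx : x = k <;> by_cases hy : y = k
      · simp [hx, hy]
      · simp [hx, hy]
      · simp [hx, hy]
      · simp [hx, hy, hw1 x y]
    · intro x hx y hy hxy
      by_cases hxk : x = k
      · subst hxk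
        have hy' : y ∈ l := (List.mem_cons.1 hy).resolve_left (fun h => hxy h.symm)
        obtain ⟨h1, h2, h3, h4, h5, _⟩ := hg1 y hy'
        simp only [if_true]
        exact ⟨h1, h2, h3, h4, h5⟩
      · have hx' : x ∈ l := (List.mem_cons.1 hx).resolve_left hxk
        by_cases hyk : y = k
        · subst hyk
          obtain ⟨h1, h2, h3, h4, h5, _⟩ := hg1 x hx'
          simp only [if_true, hxk, if_false]
          exact ⟨h1, h3, h2, h5, h4⟩
        · have hy' : y ∈ l := (List.mem_cons.1 hy).resolve_left hyk
          obtain ⟨h1, h2, h3, h4, h5⟩ := hw2 x hx' y hy' hxy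
          simp only [hxk, hyk, if_false]
          exact ⟨h1, h2, h3, fun h => h4 (mem_insert_of_mem h), fun h => h5 (mem_insert_of_mem h)⟩
    · intro x hx y hy z hz hxy hxz hyz
      by_cases hxk : x = k
      · subst hxk
        have hy' : y ∈ l := (List.mem_cons.1 hy).resolve_left (fun h => hxy h.symm)
        have hz' : z ∈ l := (List.mem_cons.1 hz).resolve_left (fun h => hxz h.symm)
        simp only [if_true]
        exact hg2 y hy' z hz' hyz
      · have hx' : x ∈ l := (List.mem_cons.1 hx).resolve_left hxk
        by_cases hyk : y = k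
        · subst hyk
          have hz' : z ∈ l := (List.mem_cons.1 hz).resolve_left (fun h => hyz h.symm)
          have hzk : z ≠ y := fun h => hyz h.symm
          simp only [if_true, hxk, if_false, hzk]
          intro h
          exact (hw2 x hx' z hz' hxz).2.2.2.1 (by rw [← h]; exact mem_insert_self _ _)
        · have hy' : y ∈ l := (List.mem_cons.1 hy).resolve_left hyk
          by_cases hzk : z = k
          · subst hzk
            simp only [if_true, hxk, if_false, hyk]
            intro h
            exact (hw2 x hx' y hy' hxy).2.2.2.1 (by rw [h]; exact mem_insert_self _ _)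
          · have hz' : z ∈ l := (List.mem_cons.1 hz).resolve_left hzk
            simp only [hxk, hyk, hzk, if_false]
            exact hw3 x hx' y hy' z hz' hxy hxz hyz

theorem greedy (G : SimpleGraph V) (W : Finset V) (l : List V) (hl : l.Nodup)
    (hW : ∀ x ∈ l, x ∉ W) (hm : Miss G W l) (hcard : 2 * l.length ≤ W.card + 2) :
    HasK G l.length := by
  obtain ⟨w, hw1, hw2, hw3⟩ := greedy_claim G W l.length hcard l (fun _ => ∅) hl le_rfl hm
    (by simp)
  refine ⟨l.toFinset, List.toFinset_card_of_nodup hl, ?_⟩
  refine routes G l.toFinset w hw1 ?_ ?_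
  · intro x hx y hy hxy
    rw [List.mem_toFinset] at hx hy
    obtain ⟨h1, h2, h3, _, _⟩ := hw2 x hx y hy hxy
    refine Or.inr ⟨?_, h2, h3⟩
    intro h
    rw [List.mem_toFinset] at h
    exact hW _ h h1
  · intro x hx y hy z hz hxy hxz hyz _ _
    rw [List.mem_toFinset] at hx hy hz
    exact hw3 x hx y hy z hz hxy hxz hyz

end Pool.Agent.Helper74.LM
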