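import Pool.Agent.Helper74.LM.MultiPart

set_option autoImplicit false

/-!
# LM-GrowA: many vertices in `R`, and the growth step

`fail_big` (uses `multiPart`): the graph `J` on `X = R ∪ C` with the labelling `c' x = c x + 1` for
`x ∈ R`, `c' x = 0` for `x ∉ R`.  `R` and `C` are disjoint (`star` with `x = r` would be a loop).
`{x ∈ X | c' x ≠ 0} = R` has at least `t` elements; for `a > 0` the set `{x ∈ X | c' x ≠ a}` has
`|C| + |R| - |{x ∈ R | c x = a - 1}| ≥ |R| ≥ t` elements by `big`.  So `HasK J t`, hence `HasK H t`
(`HasK.of_imm`).  (For symmetric adjacency use `SimpleGraph.adj_comm`.)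

`grow`: `l' = R.toList ++ l`; `Tree` and `Miss` by induction on the list `R.toList` (a vertex `r ∈ R` has
an `H`-neighbour in `l`, is not in `l`, and misses at most `n = l.length - 1` vertices of
`W \ (S ∪ R) ⊆ W \ (S ∪ R.filter ..)`).  `W' = W \ (S ∪ R)`, `|W'| ≥ |W| - |S| - |R| ≥ |W| - 2 |R|`, because
`|S| ≤ |R.image c| ≤ |R|`.
-/

namespace Pool.Agent.Helper74.LM

open Finset

variable {V : Type} [Fintype V] [DecidableEq V]

theorem fail_big (H : SimpleGraph V) (K W : Finset V) (n t : ℕ) (J : SimpleGraph V)
    (S R C : Finset V) (c : V → ℕ) (h : Fail H K W n J S R C c) (ht : t ≤ R.card) : HasK H t := by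
  refine HasK.of_imm ?_ h.imm
  have hd : Disjoint R C := by
    rw [disjoint_left]
    intro x hx hx'
    exact (h.star x hx x hx').ne rfl
  refine multiPart J (R ∪ C) (fun x => if x ∈ R then c x + 1 else 0) t ?_ ?_
  · intro x hx y hy hxy
    rw [mem_union] at hx hy
    by_cases h1 : x ∈ R <;> by_cases h2 : y ∈ R
    · simp only [h1, h2, if_true] at hxy
      exact h.cross x h1 y h2 (by omega)
    · exact h.star x h1 y (hy.resolve_left h2)
    · exact (h.star y h2 x (hx.resolve_left h1)).symm
    · simp [h1, h2] at hxy
  · intro a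
    rcases Nat.eq_zero_or_pos a with ha | ha
    · subst ha
      refine ht.trans (card_le_card ?_)
      intro x hx
      rw [mem_filter, mem_union]
      refine ⟨Or.inl hx, ?_⟩
      simp [hx]
    · have h1 : C ∪ R.filter (fun x => c x ≠ a - 1) ⊆
          (R ∪ C).filter (fun x => (if x ∈ R then c x + 1 else 0) ≠ a) := by
        intro x hx
        rw [mem_union, mem_filter] at hx
        rw [mem_filter, mem_union]
        rcases hx with hx | hx
        · refine ⟨Or.inr hx, ?_⟩
          have : x ∉ R := fun hx' => disjoint_left.1 hd hx' hx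
          simp only [this, if_false]
          omega
        · refine ⟨Or.inl hx.1, ?_⟩
          simp only [hx.1, if_true]
          have := hx.2
          omega
      have h2 : Disjoint C (R.filter (fun x => c x ≠ a - 1)) := by
        rw [disjoint_left]
        intro x hx hx'
        rw [mem_filter] at hx'
        exact disjoint_left.1 hd hx'.1 hx
      have h3 := card_le_card h1
      rw [card_union_of_disjoint h2] at h3
      have h4 := card_filter_add_card_filter_not (s := R) (fun x => c x = a - 1)
      have h5 := h.big (a - 1)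
      have h6 : (R.filter (fun x => c x ≠ a - 1)).card = (R.filter (fun x => ¬ c x = a - 1)).card := rfl
      omega

omit [Fintype V] [DecidableEq V] in
private theorem tree_append (H : SimpleGraph V) (l : List V) (hl : Tree H l) :
    ∀ m : List V, m.Nodup → (∀ r ∈ m, r ∉ l) → (∀ r ∈ m, ∃ p ∈ l, H.Adj r p) → Tree H (m ++ l)
  | [], _, _, _ => hl
  | k :: m, hnd, h1, h2 => by
    rw [List.nodup_cons] at hnd
    refine ⟨tree_append H l hl m hnd.2 (fun r hr => h1 r (List.mem_cons_of_mem _ hr))
      (fun r hr => h2 r (List.mem_cons_of_mem _ hr)), ?_, Or.inr ?_⟩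
    · change k ∉ m ++ l
      rw [List.mem_append]
      rintro (h | h)
      · exact hnd.1 h
      · exact h1 k List.mem_cons_self h
    · obtain ⟨p, hp, hpk⟩ := h2 k List.mem_cons_self
      exact ⟨p, List.mem_append_right _ hp, hpk⟩

private theorem miss_append (H : SimpleGraph V) (W : Finset V) (l : List V) (hl : Miss H W l) :
    ∀ m : List V, (∀ r ∈ m, (W \ nb H r).card ≤ l.length) → Miss H W (m ++ l)
  | [], _ => hl
  | k :: m, h => by
    refine ⟨?_, miss_append H W l hl m (fun r hr => h r (List.mem_cons_of_mem _ hr))⟩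
    have := h k List.mem_cons_self
    change _ ≤ (m ++ l).length
    rw [List.length_append]
    omega

theorem grow (H : SimpleGraph V) (l : List V) (W : Finset V) (J : SimpleGraph V)
    (S R C : Finset V) (c : V → ℕ) (hl : Tree H l) (hm : Miss H W l) (hne : l ≠ [])
    (hWl : ∀ x ∈ l, x ∉ W) (h : Fail H l.toFinset W (l.length - 1) J S R C c) :
    ∃ (l' : List V) (W' : Finset V), Tree H l' ∧ Miss H W' l' ∧ (∀ x ∈ l', x ∉ W') ∧
      l'.length = l.length + R.card ∧ (∀ x ∈ l, x ∈ l') ∧ (∀ x ∈ l', x ∈ l ∨ x ∈ R) ∧ W' ⊆ W ∧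
      W.card ≤ W'.card + 2 * R.card := by
  refine ⟨R.toList ++ l, W \ (S ∪ R), ?_, ?_, ?_, ?_, ?_, ?_, sdiff_subset, ?_⟩
  · apply tree_append H l hl
    · exact nodup_toList R
    · intro r hr
      have := h.notK r (mem_toList.1 hr)
      simpa using this
    · intro r hr
      obtain ⟨p, hp, hpr⟩ := h.par r (mem_toList.1 hr)
      exact ⟨p, by simpa using hp, hpr⟩
  · apply miss_append
    · exact hm.mono sdiff_subset
    · intro r hr
      have h1 := h.miss r (mem_toList.1 hr)
      have h2 : (W \ (S ∪ R)) \ nb H r ⊆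
          (W \ (S ∪ R.filter (fun x => c x = c r))) \ nb H r := by
        apply sdiff_subset_sdiff _ (Subset.refl _)
        apply sdiff_subset_sdiff (Subset.refl _)
        exact union_subset_union_right (filter_subset _ _)
      have h3 := card_le_card h2
      omega
  · intro x hx
    rw [List.mem_append] at hx
    rw [mem_sdiff, mem_union]
    rintro ⟨h1, h2⟩
    rcases hx with hx | hx
    · exact h2 (Or.inr (mem_toList.1 hx))
    · exact hWl x hx h1
  · rw [List.length_append, length_toList]
    omega
  · intro x hx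
    exact List.mem_append_right _ hx
  · intro x hx
    rw [List.mem_append] at hx
    rcases hx with hx | hx
    · exact Or.inr (mem_toList.1 hx)
    · exact Or.inl hx
  · have h1 : W ⊆ (W \ (S ∪ R)) ∪ (S ∪ R) := by
      intro x hx
      rw [mem_union, mem_sdiff]
      by_cases h2 : x ∈ S ∪ R
      · exact Or.inr h2
      · exact Or.inl ⟨hx, h2⟩
    have h2 := card_le_card h1
    have h3 := card_union_le (W \ (S ∪ R)) (S ∪ R)
    have h4 := card_union_le S R
    have h5 := h.card
    have h6 : (R.image c).card ≤ R.card := card_image_le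
    omega

end Pool.Agent.Helper74.LM
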