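import Pool.Agent.Helper74.LM.Greedy

set_option autoImplicit false

/-!
# LM-GrowB: the final step

`select`: induction on `a` (or: order `R` by its labels and cut): if `R'' ⊆ R` has been chosen
for `a` with a remainder `Q` (the part of the partial class which is not in `R''`), take the next element
from `Q` if `Q` is nonempty, otherwise from `R \ R''`, its class minus the element becoming the
new `Q` (if `Q = ∅` then `R''` is a union of classes).  The inequality
`|Q| + |R.image c| ≤ |R|`: if `Q` is nonempty then `Q` together with at least one more element is contained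
in one class and every other class has at least one element; if `Q = ∅` it is `card_image_le`.
One may carry the invariant: `Q = ∅`, or there are `a₀` and `r₀ ∈ R''` with `c r₀ = a₀` and
`∀ x ∈ Q, c x = a₀`.

`final`: `select` with `a = t - l.length`, `W'' = W \ (S ∪ R'' ∪ Q)`, `l' = R''.toList ++ l`, of length `t`.
`Miss H W'' l'`, by induction on the list `R''.toList`: for `r ∈ R''` every `x ∈ R` with the same label is in
`R'' ∪ Q`, so `W'' ⊆ W \ (S ∪ R.filter (fun x => c x = c r))` and `r` misses at most `l.length - 1` vertices of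
`W''` by the field `miss`; for the vertices of `l` use `Miss.mono`.  `|W''| ≥ |W| - |S| - a - |Q|` and
`|S| + |Q| ≤ |R.image c| + |Q| ≤ |R| ≤ t - 1`, so
`|W''| ≥ (5 t - 4 - 2 (t - a)) - a - (t - 1) = 2 t - 3 + a ≥ 2 t - 2`.  Then `greedy`
(the list `l'` is nodup: `Tree.nodup`, and `R''` is disjoint from `l` by `notK`).
-/

namespace Pool.Agent.Helper74.LM

open Finset

variable {V : Type} [Fintype V] [DecidableEq V]

/-- the selection lemma with its invariant -/
theorem select_aux (R : Finset V) (c : V → ℕ) : ∀ a, a ≤ R.card →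
    ∃ R' Q : Finset V, R' ⊆ R ∧ Q ⊆ R ∧ R'.card = a ∧
      (∀ r ∈ R', ∀ x ∈ R, c x = c r → x ∈ R' ∨ x ∈ Q) ∧ Disjoint R' Q ∧
      (Q = ∅ ∨ ∃ r₀ ∈ R', ∀ x ∈ Q, c x = c r₀) := by
  intro a
  induction a with
  | zero =>
    intro _
    exact ⟨∅, ∅, empty_subset _, empty_subset _, card_empty, by simp, disjoint_empty_right _,
      Or.inl rfl⟩
  | succ a ih =>
    intro ha
    obtain ⟨R', Q, h1, h2, h3, h4, h5, h6⟩ := ih (by omega)
    by_cases hQ : Q = ∅
    · subst hQ
      obtain ⟨q, hq⟩ : (R \ R').Nonempty := by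
        rw [← card_pos]
        have := le_card_sdiff R' R
        omega
      rw [mem_sdiff] at hq
      refine ⟨insert q R', (R.filter (fun x => c x = c q)) \ insert q R', ?_, ?_, ?_, ?_, ?_, ?_⟩
      · exact insert_subset hq.1 h1
      · exact sdiff_subset.trans (filter_subset _ _)
      · rw [card_insert_of_notMem hq.2, h3]
      · intro r hr x hx hc
        rcases mem_insert.1 hr with rfl | hr
        · by_cases hxi : x ∈ insert r R'
          · exact Or.inl hxi
          · exact Or.inr (mem_sdiff.2 ⟨mem_filter.2 ⟨hx, hc⟩, hxi⟩)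
        · rcases h4 r hr x hx hc with h | h
          · exact Or.inl (mem_insert_of_mem h)
          · exact absurd h (notMem_empty _)
      · exact disjoint_sdiff
      · refine Or.inr ⟨q, mem_insert_self _ _, fun x hx => ?_⟩
        exact (mem_filter.1 (mem_sdiff.1 hx).1).2
    · obtain ⟨r₀, hr₀, hc₀⟩ := h6.resolve_left hQ
      obtain ⟨q, hq⟩ := nonempty_iff_ne_empty.2 hQ
      have hqR : q ∉ R' := fun h => (disjoint_left.1 h5 h) hq
      refine ⟨insert q R', Q.erase q, ?_, ?_, ?_, ?_, ?_, ?_⟩
      · exact insert_subset (h2 hq) h1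
      · exact (erase_subset _ _).trans h2
      · rw [card_insert_of_notMem hqR, h3]
      · intro r hr x hx hc
        have key : x ∈ R' ∨ x ∈ Q := by
          rcases mem_insert.1 hr with rfl | hr
          · exact h4 r₀ hr₀ x hx (hc.trans (hc₀ _ hq))
          · exact h4 r hr x hx hc
        rcases key with h | h
        · exact Or.inl (mem_insert_of_mem h)
        · by_cases hxq : x = q
          · exact Or.inl (hxq ▸ mem_insert_self _ _)
          · exact Or.inr (mem_erase.2 ⟨hxq, h⟩)
      · rw [disjoint_left]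
        intro x hx hx'
        rw [mem_erase] at hx'
        rcases mem_insert.1 hx with h | h
        · exact hx'.1 h
        · exact disjoint_left.1 h5 h hx'.2
      · exact Or.inr ⟨r₀, mem_insert_of_mem hr₀, fun x hx => hc₀ x (mem_of_mem_erase hx)⟩

theorem select (R : Finset V) (c : V → ℕ) (a : ℕ) (ha : a ≤ R.card) :
    ∃ R' Q : Finset V, R' ⊆ R ∧ Q ⊆ R ∧ R'.card = a ∧
      (∀ r ∈ R', ∀ x ∈ R, c x = c r → x ∈ R' ∨ x ∈ Q) ∧ Q.card + (R.image c).card ≤ R.card := by
  obtain ⟨R', Q, h1, h2, h3, h4, h5, h6⟩ := select_aux R c a ha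
  refine ⟨R', Q, h1, h2, h3, h4, ?_⟩
  rcases h6 with h6 | ⟨r₀, hr₀, hc₀⟩
  · rw [h6, card_empty, zero_add]
    exact card_image_le
  · have himg : R.image c ⊆ (R \ Q).image c := by
      intro y hy
      obtain ⟨x, hx, rfl⟩ := mem_image.1 hy
      by_cases hxQ : x ∈ Q
      · rw [hc₀ x hxQ]
        exact mem_image_of_mem _ (mem_sdiff.2 ⟨h1 hr₀, fun h => disjoint_left.1 h5 hr₀ h⟩)
      · exact mem_image_of_mem _ (mem_sdiff.2 ⟨hx, hxQ⟩)
    have h7 := (card_le_card himg).trans card_image_le
    have h8 := card_sdiff_add_card_eq_card h2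
    omega

theorem final (H : SimpleGraph V) (l : List V) (W : Finset V) (t : ℕ) (J : SimpleGraph V)
    (S R C : Finset V) (c : V → ℕ) (hl : Tree H l) (hm : Miss H W l) (hne : l ≠ [])
    (hWl : ∀ x ∈ l, x ∉ W) (h : Fail H l.toFinset W (l.length - 1) J S R C c)
    (hlt : l.length < t) (hR : R.card < t) (hge : t ≤ l.length + R.card)
    (hW : 5 * t ≤ W.card + 2 * l.length + 4) : HasK H t := by
  obtain ⟨R', Q, h1, h2, h3, h4, h5⟩ := select R c (t - l.length) (by omega)
  have hlen : (R'.toList ++ l).length = t := by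
    rw [List.length_append, length_toList, h3]
    omega
  have hsub : W \ (S ∪ R' ∪ Q) ⊆ W := sdiff_subset
  have hmiss : ∀ L : List V, (∀ r ∈ L, r ∈ R') → Miss H (W \ (S ∪ R' ∪ Q)) (L ++ l) := by
    intro L
    induction L with
    | nil =>
      intro _
      exact hm.mono hsub
    | cons k L ih =>
      intro hL
      have hk : k ∈ R' := hL k List.mem_cons_self
      refine ⟨?_, ih (fun r hr => hL r (List.mem_cons_of_mem _ hr))⟩
      have h6 := h.miss k (h1 hk)
      have h7 : (W \ (S ∪ R' ∪ Q)) \ nb H k ⊆
          (W \ (S ∪ R.filter (fun x => c x = c k))) \ nb H k := by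
        apply sdiff_subset_sdiff _ (Subset.refl _)
        apply sdiff_subset_sdiff (Subset.refl _)
        intro x hx
        rcases mem_union.1 hx with hx | hx
        · exact mem_union_left _ (mem_union_left _ hx)
        · rw [mem_filter] at hx
          rcases h4 k hk x hx.1 hx.2 with hh | hh
          · exact mem_union_left _ (mem_union_right _ hh)
          · exact mem_union_right _ hh
      refine (card_le_card h7).trans (h6.trans ?_)
      change l.length - 1 ≤ (L ++ l).length
      rw [List.length_append]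
      omega
  have hcard : 2 * (R'.toList ++ l).length ≤ (W \ (S ∪ R' ∪ Q)).card + 2 := by
    rw [hlen]
    have e1 : (S ∪ R' ∪ Q).card ≤ S.card + R'.card + Q.card :=
      (card_union_le _ _).trans (Nat.add_le_add_right (card_union_le _ _) _)
    have e2 := le_card_sdiff (S ∪ R' ∪ Q) W
    have e3 := h.card
    omega
  have hnd : (R'.toList ++ l).Nodup := by
    rw [List.nodup_append]
    refine ⟨nodup_toList _, hl.nodup, ?_⟩
    intro x hx y hy hxy
    rw [mem_toList] at hx
    exact h.notK x (h1 hx) (List.mem_toFinset.2 (hxy ▸ hy))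
  have hfin := greedy H (W \ (S ∪ R' ∪ Q)) (R'.toList ++ l) hnd (by
    intro x hx hxW
    rw [mem_sdiff] at hxW
    rcases List.mem_append.1 hx with hx | hx
    · rw [mem_toList] at hx
      exact hxW.2 (mem_union_left _ (mem_union_right _ hx))
    · exact hWl x hx hxW.1) (hmiss _ (fun r hr => mem_toList.1 hr)) hcard
  rwa [hlen] at hfin

end Pool.Agent.Helper74.LM
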