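import Pool.Agent.Helper74.LM.Basic

set_option autoImplicit false

/-!
# LM-KempeConn: the Kempe chain argument

PROOF.  Suppose that `x` and `y` are not connected by `F`.  Let `D` be the set of the vertices reachable
from `x` in `fromEdgeSet F`, and `c'` the colouring with `a` and `b` exchanged on `D`
(`c' z = if z ∈ D ∧ c z = a then b else if z ∈ D ∧ c z = b then a else c z`, classical decidability).
It is proper on `U.erase v`: an edge of `G` inside `U.erase v` with colours `a, b` belongs to `F`, so it
has both ends in `D` or none; an edge with at most one end coloured `a` or `b` is clear (its other end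
keeps its colour).  The colour `a` does not occur on the neighbours of `v` in `U`: such a neighbour `z` with
`c' z = a` has either `c z = a`, `z ∉ D`, but then `z = x ∈ D` by `hx`; or `c z = b` and `z ∈ D`, then `z = y`
by `hy`, but `y ∉ D`.  So `Function.update c' v a` is a proper colouring of `U` with `n` colours,
contradicting `hU`.
-/

namespace Pool.Agent.Helper74.LM

open Finset

theorem kempe_conn {V : Type} [DecidableEq V] (G : SimpleGraph V) (U : Finset V) (v : V) (n : ℕ)
    (hU : ¬ ColOn G U n) (c : V → ℕ) (hc : ∀ z ∈ U.erase v, c z < n)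
    (hc2 : ∀ z ∈ U.erase v, ∀ z' ∈ U.erase v, G.Adj z z' → c z ≠ c z')
    (a b : ℕ) (hab : a ≠ b) (ha : a < n) (hb : b < n) (x y : V)
    (hx : ∀ z ∈ U.erase v, G.Adj v z → c z = a → z = x)
    (hy : ∀ z ∈ U.erase v, G.Adj v z → c z = b → z = y) :
    Conn {e | ∃ z ∈ U.erase v, ∃ z' ∈ U.erase v, G.Adj z z' ∧ c z = a ∧ c z' = b ∧ e = s(z, z')}
      x y := by
  classical
  by_contra hcon
  set F : Set (Sym2 V) :=
    {e | ∃ z ∈ U.erase v, ∃ z' ∈ U.erase v, G.Adj z z' ∧ c z = a ∧ c z' = b ∧ e = s(z, z')} with hF
  apply hU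
  set D : V → Prop := fun z => Conn F x z with hD
  have hDx : D x := SimpleGraph.Reachable.refl _
  have hDy : ¬ D y := hcon
  have key : ∀ z ∈ U.erase v, ∀ z' ∈ U.erase v, G.Adj z z' → c z = a → c z' = b → (D z ↔ D z') := by
    intro z hz z' hz' hadj h1 h2
    have h3 : Conn F z z' := Conn.of_mem hadj.ne ⟨z, hz, z', hz', hadj, h1, h2, rfl⟩
    exact ⟨fun h => h.trans h3, fun h => h.trans h3.symm⟩
  set c' : V → ℕ := fun z => if D z ∧ c z = a then b else if D z ∧ c z = b then a else c z with hc'
  have v1 : ∀ z, D z → c z = a → c' z = b := by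
    intro z h1 h2
    simp only [hc']
    rw [if_pos ⟨h1, h2⟩]
  have v2 : ∀ z, D z → c z = b → c' z = a := by
    intro z h1 h2
    simp only [hc']
    rw [if_neg (fun h => hab (h.2.symm.trans h2)), if_pos ⟨h1, h2⟩]
  have v3 : ∀ z, ¬ D z → c' z = c z := by
    intro z h1
    simp only [hc']
    rw [if_neg (fun h => h1 h.1), if_neg (fun h => h1 h.1)]
  have v4 : ∀ z, c z ≠ a → c z ≠ b → c' z = c z := by
    intro z h1 h2
    simp only [hc']
    rw [if_neg (fun h => h1 h.2), if_neg (fun h => h2 h.2)]
  have lt' : ∀ z ∈ U.erase v, c' z < n := by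
    intro z hz
    by_cases h1 : D z
    · by_cases h2 : c z = a
      · rw [v1 z h1 h2]; exact hb
      · by_cases h3 : c z = b
        · rw [v2 z h1 h3]; exact ha
        · rw [v4 z h2 h3]; exact hc z hz
    · rw [v3 z h1]; exact hc z hz
  have prop' : ∀ z ∈ U.erase v, ∀ z' ∈ U.erase v, G.Adj z z' → c' z ≠ c' z' := by
    intro z hz z' hz' hadj
    have hne := hc2 z hz z' hz' hadj
    have k1 := key z hz z' hz' hadj
    have k2 := key z' hz' z hz hadj.symm
    by_cases h1 : D z <;> by_cases h1' : D z'
    · by_cases h2 : c z = a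
      · rw [v1 z h1 h2]
        by_cases h2' : c z' = a
        · exact absurd (h2.trans h2'.symm) hne
        · by_cases h3' : c z' = b
          · rw [v2 z' h1' h3']; exact hab.symm
          · rw [v4 z' h2' h3']; exact fun h => h3' h.symm
      · by_cases h3 : c z = b
        · rw [v2 z h1 h3]
          by_cases h2' : c z' = a
          · rw [v1 z' h1' h2']; exact hab
          · by_cases h3' : c z' = b
            · exact absurd (h3.trans h3'.symm) hne
            · rw [v4 z' h2' h3']; exact fun h => h2' h.symm
        · rw [v4 z h2 h3]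
          by_cases h2' : c z' = a
          · rw [v1 z' h1' h2']; exact h3
          · by_cases h3' : c z' = b
            · rw [v2 z' h1' h3']; exact h2
            · rw [v4 z' h2' h3']; exact hne
    · rw [v3 z' h1']
      by_cases h2 : c z = a
      · rw [v1 z h1 h2]
        intro h
        exact h1' ((k1 h2 h.symm).1 h1)
      · by_cases h3 : c z = b
        · rw [v2 z h1 h3]
          intro h
          exact h1' ((k2 h.symm h3).2 h1)
        · rw [v4 z h2 h3]; exact hne
    · rw [v3 z h1]
      by_cases h2 : c z' = a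
      · rw [v1 z' h1' h2]
        intro h
        exact h1 ((k2 h2 h).1 h1')
      · by_cases h3 : c z' = b
        · rw [v2 z' h1' h3]
          intro h
          exact h1 ((k1 h h3).2 h1')
        · rw [v4 z' h2 h3]; exact hne
    · rw [v3 z h1, v3 z' h1']; exact hne
  have nota : ∀ z ∈ U.erase v, G.Adj v z → c' z ≠ a := by
    intro z hz hadj
    by_cases h1 : D z
    · by_cases h2 : c z = a
      · rw [v1 z h1 h2]; exact hab.symm
      · by_cases h3 : c z = b
        · exact absurd (hy z hz hadj h3 ▸ h1) hDy
        · rw [v4 z h2 h3]; exact h2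
    · rw [v3 z h1]
      intro h
      exact h1 (hx z hz hadj h ▸ hDx)
  refine ⟨Function.update c' v a, ?_, ?_⟩
  · intro z hz
    by_cases hzv : z = v
    · rw [hzv, Function.update_self]; exact ha
    · rw [Function.update_of_ne hzv]
      exact lt' z (mem_erase.2 ⟨hzv, hz⟩)
  · intro z hz z' hz' hadj
    by_cases hzv : z = v
    · have hzv' : z' ≠ v := fun h => hadj.ne (hzv.trans h.symm)
      rw [hzv, Function.update_self, Function.update_of_ne hzv']
      exact (nota z' (mem_erase.2 ⟨hzv', hz'⟩) (hzv ▸ hadj)).symm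
    · by_cases hzv' : z' = v
      · rw [hzv', Function.update_self, Function.update_of_ne hzv]
        exact nota z (mem_erase.2 ⟨hzv, hz⟩) (hzv' ▸ hadj.symm)
      · rw [Function.update_of_ne hzv, Function.update_of_ne hzv']
        exact prop' z (mem_erase.2 ⟨hzv, hz⟩) z' (mem_erase.2 ⟨hzv', hz'⟩) hadj

end Pool.Agent.Helper74.LM
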