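import Pool.Agent.Helper74.LM.Basic

set_option autoImplicit false

/-!
# LM-MatchStar: lifting the pairs of a matching at a common neighbour, and joining two leftovers

`imm_star`: the edge `s(x, y)` of `M` is routed by `{s(k, x), s(k, y)}`, i.e. `F e = {f | ∃ x ∈ e, f = s(k, x)}`
(with `x ∈ X`); since `M` is a matching these sets are disjoint for different edges of `M`.
Note `x ≠ k` for `x ∈ X`.

`card_nb_star`: for `x ≠ k`, both sides are `1` if `x ∈ X` and `0` otherwise.

`imm_join`: the only edge `s(a, b)` is routed by the three edges.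

`card_nb_join`: for `x ≠ k, j`: both sides are `1` if `x = a` or `x = b` and `0` otherwise
(`a ≠ b`; `a, b ≠ k, j`).
-/

namespace Pool.Agent.Helper74.LM

open Finset

variable {V : Type}

theorem imm_star (J M : SimpleGraph V) (X : Finset V) (k : V) (hk : k ∉ X) (hM : PM J X M) :
    Imm M (star k X) := by
  have hXk : ∀ x ∈ X, x ≠ k := by
    rintro x hx rfl
    exact hk hx
  refine ⟨fun e => {f | ∃ x, x ∈ e ∧ f = s(k, x)}, ?_, ?_, ?_⟩
  · intro e he f hf
    obtain ⟨x, hx, rfl⟩ := hf
    induction e using Sym2.ind with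
    | _ a b =>
      have hab : M.Adj a b := he
      have hxX : x ∈ X := by
        rw [Sym2.mem_iff] at hx
        rcases hx with rfl | rfl
        · exact (hM.sub _ _ hab).1
        · exact (hM.sub _ _ hab).2.1
      change (star k X).Adj k x
      exact ⟨(hXk x hxX).symm, Or.inl ⟨rfl, hxX⟩⟩
  · intro e he e' he' hne
    rw [Set.disjoint_left]
    rintro f ⟨x, hx, rfl⟩ ⟨x', hx', hxx⟩
    have hx2 : x = x' := by
      rw [Sym2.congr_right] at hxx
      exact hxx
    subst hx2
    apply hne
    obtain ⟨y, rfl⟩ := Sym2.mem_iff_exists.1 hx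
    obtain ⟨y', rfl⟩ := Sym2.mem_iff_exists.1 hx'
    have : y = y' := hM.uniq x y y' he he'
    rw [this]
  · intro x y hxy
    have h := hM.sub x y hxy
    refine Conn.trans (Conn.of_mem (y := k) (hXk x h.1) ?_) (Conn.of_mem (hXk y h.2.1).symm ?_)
    · exact ⟨x, by simp, Sym2.eq_swap⟩
    · exact ⟨y, by simp, rfl⟩

theorem card_nb_star [Fintype V] [DecidableEq V] (J M : SimpleGraph V) (X : Finset V) (k : V)
    (hk : k ∉ X) (hM : PM J X M) (x : V) (hx : x ≠ k) :
    (nb M x).card = (nb (star k X) x).card := by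
  by_cases hX : x ∈ X
  · obtain ⟨y, hy⟩ := hM.cover x hX
    have h1 : nb M x = {y} := by
      ext z
      rw [mem_nb, mem_singleton]
      constructor
      · intro hz
        exact hM.uniq x z y hz hy
      · rintro rfl
        exact hy
    have h2 : nb (star k X) x = {k} := by
      ext z
      rw [mem_nb, mem_singleton]
      constructor
      · rintro ⟨_, h | h⟩
        · exact absurd h.1 hx
        · exact h.1
      · rintro rfl
        exact ⟨hx, Or.inr ⟨rfl, hX⟩⟩
    rw [h1, h2, card_singleton, card_singleton]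
  · have h1 : nb M x = ∅ := by
      ext z
      rw [mem_nb]
      constructor
      · intro hz
        exact absurd (hM.sub x z hz).1 hX
      · intro h
        exact absurd h (notMem_empty z)
    have h2 : nb (star k X) x = ∅ := by
      ext z
      rw [mem_nb]
      constructor
      · rintro ⟨_, h | h⟩
        · exact absurd h.1 hx
        · exact absurd h.2 hX
      · intro h
        exact absurd h (notMem_empty z)
    rw [h1, h2]

theorem imm_join (a b j k : V) (hak : a ≠ k) (hkj : k ≠ j) (hjb : j ≠ b) :
    Imm (SimpleGraph.fromEdgeSet {s(a, b)}) (SimpleGraph.fromEdgeSet {s(a, k), s(k, j), s(j, b)}) := by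
  refine ⟨fun _ => {s(a, k), s(k, j), s(j, b)}, ?_, ?_, ?_⟩
  · intro e _ f hf
    rw [SimpleGraph.edgeSet_fromEdgeSet]
    refine ⟨hf, ?_⟩
    rcases hf with rfl | rfl | rfl
    · exact fun h => hak (by simpa using h)
    · exact fun h => hkj (by simpa using h)
    · exact fun h => hjb (by simpa using h)
  · intro e he e' he' hne
    rw [SimpleGraph.edgeSet_fromEdgeSet] at he he'
    exact absurd (he.1.trans he'.1.symm) hne
  · intro x y hxy
    rw [SimpleGraph.fromEdgeSet_adj] at hxy
    have hc : Conn ({s(a, k), s(k, j), s(j, b)} : Set (Sym2 V)) a b := by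
      refine Conn.trans (Conn.of_mem (y := k) hak ?_)
        (Conn.trans (Conn.of_mem (y := j) hkj ?_) (Conn.of_mem hjb ?_))
      · exact Or.inl rfl
      · exact Or.inr (Or.inl rfl)
      · exact Or.inr (Or.inr rfl)
    have h := hxy.1
    rw [Set.mem_singleton_iff, Sym2.eq_iff] at h
    rcases h with ⟨rfl, rfl⟩ | ⟨rfl, rfl⟩
    · exact hc
    · exact hc.symm

theorem card_nb_join [Fintype V] [DecidableEq V] (a b j k x : V) (hab : a ≠ b) (hak : a ≠ k)
    (haj : a ≠ j) (hbk : b ≠ k) (hbj : b ≠ j) (hxk : x ≠ k) (hxj : x ≠ j) :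
    (nb (SimpleGraph.fromEdgeSet {s(a, b)}) x).card =
      (nb (SimpleGraph.fromEdgeSet {s(a, k), s(k, j), s(j, b)}) x).card := by
  by_cases hxa : x = a
  · subst hxa
    have h1 : nb (SimpleGraph.fromEdgeSet {s(x, b)}) x = {b} := by
      ext z
      rw [mem_nb, mem_singleton, SimpleGraph.fromEdgeSet_adj, Set.mem_singleton_iff, Sym2.eq_iff]
      constructor
      · rintro ⟨h | h, _⟩
        · exact h.2
        · exact absurd h.1 hab
      · rintro rfl
        exact ⟨Or.inl ⟨rfl, rfl⟩, hab⟩
    have h2 : nb (SimpleGraph.fromEdgeSet {s(x, k), s(k, j), s(j, b)}) x = {k} := by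
      ext z
      rw [mem_nb, mem_singleton, SimpleGraph.fromEdgeSet_adj, Set.mem_insert_iff,
        Set.mem_insert_iff, Set.mem_singleton_iff, Sym2.eq_iff, Sym2.eq_iff, Sym2.eq_iff]
      constructor
      · rintro ⟨(h | h) | (h | h) | (h | h), _⟩
        · exact h.2
        · exact absurd h.1 hxk
        · exact absurd h.1 hxk
        · exact absurd h.1 hxj
        · exact absurd h.1 hxj
        · exact absurd h.1 hab
      · rintro rfl
        exact ⟨Or.inl (Or.inl ⟨rfl, rfl⟩), hxk⟩
    rw [h1, h2, card_singleton, card_singleton]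
  by_cases hxb : x = b
  · subst hxb
    have h1 : nb (SimpleGraph.fromEdgeSet {s(a, x)}) x = {a} := by
      ext z
      rw [mem_nb, mem_singleton, SimpleGraph.fromEdgeSet_adj, Set.mem_singleton_iff, Sym2.eq_iff]
      constructor
      · rintro ⟨h | h, _⟩
        · exact absurd h.1 hxa
        · exact h.2
      · rintro rfl
        exact ⟨Or.inr ⟨rfl, rfl⟩, hxa⟩
    have h2 : nb (SimpleGraph.fromEdgeSet {s(a, k), s(k, j), s(j, x)}) x = {j} := by
      ext z
      rw [mem_nb, mem_singleton, SimpleGraph.fromEdgeSet_adj, Set.mem_insert_iff,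
        Set.mem_insert_iff, Set.mem_singleton_iff, Sym2.eq_iff, Sym2.eq_iff, Sym2.eq_iff]
      constructor
      · rintro ⟨(h | h) | (h | h) | (h | h), _⟩
        · exact absurd h.1 hxa
        · exact absurd h.1 hxk
        · exact absurd h.1 hxk
        · exact absurd h.1 hxj
        · exact absurd h.1 hxj
        · exact h.2
      · rintro rfl
        exact ⟨Or.inr (Or.inr (Or.inr ⟨rfl, rfl⟩)), hxj⟩
    rw [h1, h2, card_singleton, card_singleton]
  · have h1 : nb (SimpleGraph.fromEdgeSet {s(a, b)}) x = ∅ := by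
      ext z
      rw [mem_nb, SimpleGraph.fromEdgeSet_adj, Set.mem_singleton_iff, Sym2.eq_iff]
      constructor
      · rintro ⟨h | h, _⟩
        · exact absurd h.1 hxa
        · exact absurd h.1 hxb
      · intro h
        exact absurd h (notMem_empty z)
    have h2 : nb (SimpleGraph.fromEdgeSet {s(a, k), s(k, j), s(j, b)}) x = ∅ := by
      ext z
      rw [mem_nb, SimpleGraph.fromEdgeSet_adj, Set.mem_insert_iff,
        Set.mem_insert_iff, Set.mem_singleton_iff, Sym2.eq_iff, Sym2.eq_iff, Sym2.eq_iff]
      constructor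
      · rintro ⟨(h | h) | (h | h) | (h | h), _⟩
        · exact absurd h.1 hxa
        · exact absurd h.1 hxk
        · exact absurd h.1 hxk
        · exact absurd h.1 hxj
        · exact absurd h.1 hxj
        · exact absurd h.1 hxb
      · intro h
        exact absurd h (notMem_empty z)
    rw [h1, h2]

end Pool.Agent.Helper74.LM
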