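import Pool.Agent.Helper74.LM.Dich
import Pool.Agent.Helper74.LM.GrowA
import Pool.Agent.Helper74.LM.GrowB

set_option autoImplicit false

/-!
# LM-MinDeg: assembly of Theorem 1 (minimum degree at least `5 t - 5`)
-/

namespace Pool.Agent.Helper74.LM

open Finset

variable {V : Type} [Fintype V] [DecidableEq V]

/-- The growth induction. -/
theorem growth (t d : ℕ) (ht : 2 ≤ t) (hd : 5 * t ≤ d + 5) (H : SimpleGraph V) (A : Finset V) (v : V)
    (hA : Cls d H A v) :
    ∀ (n : ℕ) (l : List V) (W : Finset V), t = l.length + n → 1 ≤ n → l ≠ [] → Tree H l → v ∈ l →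
      (∀ x ∈ l, x ∈ A) → W ⊆ A → (∀ x ∈ l, x ∉ W) → Miss H W l →
      5 * t ≤ W.card + 2 * l.length + 4 →
      HasK H t ∨ ∃ (H' : SimpleGraph V) (v' : V) (K : Finset V), v ∈ K ∧ K ⊆ A ∧ Imm H' H ∧
        Cls d H' (A \ K) v' := by
  intro n
  induction n using Nat.strong_induction_on with
  | _ n ih =>
    intro l W htn hn hne hl hv hlA hWA hWl hm hcard
    have hlpos : 1 ≤ l.length := List.length_pos_iff.2 hne
    rcases dich d H A v hA l hl hv W hWA hWl hm (by omega) with hsucc | ⟨J, S, R, C, c, hF⟩
    · obtain ⟨H', v', h1, h2⟩ := hsucc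
      refine Or.inr ⟨H', v', l.toFinset, by simpa using hv, ?_, h1, h2⟩
      intro x hx
      exact hlA x (by simpa using hx)
    · have hRpos : 1 ≤ R.card := hF.ne.card_pos
      by_cases hbig : t ≤ R.card
      · exact Or.inl (fail_big H _ W _ t J S R C c hF hbig)
      · by_cases hfin : t ≤ l.length + R.card
        · exact Or.inl (final H l W t J S R C c hl hm hne hWl hF (by omega) (by omega) hfin hcard)
        · obtain ⟨l', W', hl', hm', hWl', hlen, hsub, hin, hWW, hc⟩ :=
            grow H l W J S R C c hl hm hne hWl hF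
          refine ih (n - R.card) (by omega) l' W' (by omega) (by omega) ?_ hl' (hsub v hv) ?_
            (hWW.trans hWA) hWl' hm' (by omega)
          · rintro rfl
            simp at hlen
            omega
          · intro x hx
            rcases hin x hx with h1 | h1
            · exact hlA x h1
            · obtain ⟨p, _, hp⟩ := hF.par x h1
              exact hA.inA x p hp

/-- Theorem 1 for the class `Cls`. -/
theorem hasK_of_cls (t d : ℕ) (ht : 2 ≤ t) (hd : 5 * t ≤ d + 5) :
    ∀ (n : ℕ) (H : SimpleGraph V) (A : Finset V) (v : V), A.card = n → Cls d H A v → HasK H t := by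
  intro n
  induction n using Nat.strong_induction_on with
  | _ n ih =>
    intro H A v hn hA
    have hdeg := hA.degv
    have := growth t d ht hd H A v hA (t - 1) [v] (nb H v) (by simp; omega) (by omega) (by simp)
      (by simp [Tree]) (by simp) (by simpa using hA.root)
      (fun x hx => hA.inA x v (by simpa [SimpleGraph.adj_comm] using hx))
      (by simp) (by simp [Miss]) (by simp; omega)
    rcases this with h | ⟨H', v', K, hvK, hKA, hI, hC⟩
    · exact h
    · refine HasK.of_imm (ih (A \ K).card ?_ H' (A \ K) v' rfl hC) hI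
      rw [← hn]
      apply card_lt_card
      refine ⟨sdiff_subset, fun h => ?_⟩
      have := h hA.root
      rw [mem_sdiff] at this
      exact this.2 hvK

/-- **Theorem 1.** A nonempty finite vertex set `A` carrying all edges of `H`, every vertex of `A`
having degree at least `5 t - 5`, gives an immersion of the complete graph on `t` vertices. -/
theorem hasK_of_minDeg (t : ℕ) (H : SimpleGraph V) (A : Finset V) (hne : A.Nonempty)
    (hA : ∀ x y, H.Adj x y → x ∈ A) (hdeg : ∀ x ∈ A, 5 * t ≤ (nb H x).card + 5) : HasK H t := by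
  obtain ⟨v, hv⟩ := hne
  rcases Nat.lt_or_ge t 2 with ht | ht
  · interval_cases t
    · refine ⟨∅, rfl, imm_of_le ?_⟩
      intro x y hxy
      exact absurd hxy.1 (by simp)
    · refine ⟨{v}, by simp, imm_of_le ?_⟩
      intro x y hxy
      have h1 := hxy.1
      have h2 := hxy.2.1
      rw [mem_singleton] at h1 h2
      exact absurd (h1.trans h2.symm) hxy.2.2
  · refine hasK_of_cls t (5 * t - 5) ht (by omega) A.card H A v rfl ⟨hA, hv, ?_, ?_⟩
    · have := hdeg v hv
      omega
    · intro x hx _
      have := hdeg x hx
      omega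

end Pool.Agent.Helper74.LM
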