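import Pool.Agent.Helper74.LM.Routes

set_option autoImplicit false

/-!
# LM-MultiPart: a clique immersion in a dense complete multipartite graph

Take `B ⊆ X` with `B.card = t` (`X.card ≥ t` follows from `h` for any `a`; if `X` is empty then
`t = 0`).  For a class `a` let `B_a = {x ∈ B | c x = a}`, `b_a` its size, and
`T_a = {x ∈ X | c x ≠ a} \ B`.  Then `|T_a| ≥ t - (t - b_a) = b_a`: indeed `{x ∈ X | c x ≠ a}` has at
least `t` elements and contains `t - b_a` elements of `B`.  Enumerate `B_a` by an injective index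
`idx : V → ℕ` on `B_a` with values `< b_a` (for instance via `Finset.equivFin`) and take an injective
`g_a : {0, ..., b_a - 1} → T_a`.  For `x y ∈ B_a` put `w x y = g_a ((idx x + idx y) % b_a)`; it is
symmetric, and `w x y = w x z` with `y, z ∈ B_a` gives `idx y ≡ idx z` mod `b_a`, so `y = z`.  For
`x, y ∈ B` of different classes the edge `xy` of `G` is there.  For all other pairs let `w x y` be any
constant vertex (`V` is nonempty if `t > 0`; the case `t = 0` is trivial).  The routers lie outside
`B` and in a different class of `X`, so they are adjacent to `x` and `y`.  Apply `routes`; its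
hypothesis `hinj` is needed only when `¬ G.Adj x y` and `¬ G.Adj x z`, which forces `c x = c y = c z`.
(If `G.Adj x y` although `c x = c y` nothing has to be done.)
-/

namespace Pool.Agent.Helper74.LM

open Finset

lemma multiPart_idx {V : Type} [DecidableEq V] (s : Finset V) :
    ∃ f : V → ℕ, (∀ x ∈ s, f x < s.card) ∧ ∀ x ∈ s, ∀ y ∈ s, f x = f y → x = y := by
  refine ⟨fun x => if h : x ∈ s then (s.equivFin ⟨x, h⟩ : ℕ) else 0, ?_, ?_⟩
  · intro x hx
    simp only [hx, dif_pos]
    exact (s.equivFin ⟨x, hx⟩).2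
  · intro x hx y hy hxy
    simp only [hx, hy, dif_pos] at hxy
    have h1 := s.equivFin.injective (Fin.ext hxy)
    exact congrArg Subtype.val h1

lemma multiPart_enum {V : Type} [DecidableEq V] (v₀ : V) (s : Finset V) :
    ∃ g : ℕ → V, (∀ i < s.card, g i ∈ s) ∧ ∀ i < s.card, ∀ j < s.card, g i = g j → i = j := by
  refine ⟨fun i => if h : i < s.card then (s.equivFin.symm ⟨i, h⟩ : V) else v₀, ?_, ?_⟩
  · intro i hi
    simp only [hi, dif_pos]
    exact (s.equivFin.symm ⟨i, hi⟩).2
  · intro i hi j hj hij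
    simp only [hi, hj, dif_pos] at hij
    have h1 := s.equivFin.symm.injective (Subtype.ext hij)
    exact congrArg Fin.val h1

theorem multiPart {V : Type} [DecidableEq V] (G : SimpleGraph V) (X : Finset V) (c : V → ℕ) (t : ℕ)
    (hadj : ∀ x ∈ X, ∀ y ∈ X, c x ≠ c y → G.Adj x y)
    (h : ∀ a, t ≤ (X.filter (fun x => c x ≠ a)).card) :
    HasK G t := by
  classical
  rcases Nat.eq_zero_or_pos t with ht | ht
  · refine ⟨∅, by simp [ht], imm_of_le ?_⟩
    intro x y hxy
    exact absurd hxy.1 (notMem_empty x)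
  have hX : t ≤ X.card := (h 0).trans (card_filter_le _ _)
  obtain ⟨v₀, -⟩ : X.Nonempty := card_pos.1 (ht.trans_le hX)
  obtain ⟨B, hBX, hBc⟩ := exists_subset_card_eq hX
  refine ⟨B, hBc, ?_⟩
  choose f hf1 hf2 using fun a : ℕ => multiPart_idx (B.filter (fun x => c x = a))
  choose g hg1 hg2 using fun a : ℕ => multiPart_enum v₀ ((X.filter (fun x => c x ≠ a)) \ B)
  have hT : ∀ a : ℕ, (B.filter (fun x => c x = a)).card
      ≤ ((X.filter (fun x => c x ≠ a)) \ B).card := by
    intro a
    have h1 : (B.filter (fun x => c x = a)).card + (B.filter (fun x => ¬ c x = a)).card = B.card :=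
      card_filter_add_card_filter_not (fun x => c x = a)
    have h2 : ((X.filter (fun x => c x ≠ a)) ∩ B).card ≤ (B.filter (fun x => ¬ c x = a)).card := by
      apply card_le_card
      intro x hx
      simp only [mem_inter, mem_filter] at hx ⊢
      exact ⟨hx.2, hx.1.2⟩
    have h3 := card_sdiff_add_card_inter (X.filter (fun x => c x ≠ a)) B
    have h4 := h a
    omega
  set w : V → V → V := fun x y =>
    if x ∈ B ∧ y ∈ B ∧ c x = c y then
      g (c x) ((f (c x) x + f (c x) y) % (B.filter (fun z => c z = c x)).card)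
    else v₀ with hw
  have hwT : ∀ x ∈ B, ∀ y ∈ B, c x = c y →
      w x y ∈ (X.filter (fun z => c z ≠ c x)) \ B ∧
      w x y = g (c x) ((f (c x) x + f (c x) y) % (B.filter (fun z => c z = c x)).card) ∧
      (f (c x) x + f (c x) y) % (B.filter (fun z => c z = c x)).card
        < ((X.filter (fun z => c z ≠ c x)) \ B).card := by
    intro x hx y hy hxy
    have e1 : w x y = g (c x) ((f (c x) x + f (c x) y) % (B.filter (fun z => c z = c x)).card) := by
      simp only [hw]
      rw [if_pos ⟨hx, hy, hxy⟩]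
    have hpos : 0 < (B.filter (fun z => c z = c x)).card := by
      rw [card_pos]
      exact ⟨x, by simp [hx]⟩
    have e2 : (f (c x) x + f (c x) y) % (B.filter (fun z => c z = c x)).card
        < ((X.filter (fun z => c z ≠ c x)) \ B).card := (Nat.mod_lt _ hpos).trans_le (hT (c x))
    refine ⟨?_, e1, e2⟩
    rw [e1]
    exact hg1 (c x) _ e2
  apply routes G B w
  · intro x y
    simp only [hw]
    by_cases hc : x ∈ B ∧ y ∈ B ∧ c x = c y
    · have hc' : y ∈ B ∧ x ∈ B ∧ c y = c x := ⟨hc.2.1, hc.1, hc.2.2.symm⟩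
      rw [if_pos hc, if_pos hc', hc.2.2, Nat.add_comm]
    · have hc' : ¬ (y ∈ B ∧ x ∈ B ∧ c y = c x) := fun h' => hc ⟨h'.2.1, h'.1, h'.2.2.symm⟩
      rw [if_neg hc, if_neg hc']
  · intro x hx y hy _
    by_cases hxy : c x = c y
    · right
      obtain ⟨h1, -, -⟩ := hwT x hx y hy hxy
      rw [mem_sdiff, mem_filter] at h1
      refine ⟨h1.2, ?_, ?_⟩
      · exact hadj x (hBX hx) _ h1.1.1 (Ne.symm h1.1.2)
      · refine hadj y (hBX hy) _ h1.1.1 ?_
        rw [← hxy]
        exact Ne.symm h1.1.2
    · left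
      exact hadj x (hBX hx) y (hBX hy) hxy
  · intro x hx y hy z hz _ _ hyz hnxy hnxz heq
    have cxy : c x = c y := by
      by_contra h'
      exact hnxy (hadj x (hBX hx) y (hBX hy) h')
    have cxz : c x = c z := by
      by_contra h'
      exact hnxz (hadj x (hBX hx) z (hBX hz) h')
    obtain ⟨-, e1, l1⟩ := hwT x hx y hy cxy
    obtain ⟨-, e2, l2⟩ := hwT x hx z hz cxz
    rw [e1, e2] at heq
    have h1 := hg2 (c x) _ l1 _ l2 heq
    have h2 : f (c x) y ≡ f (c x) z [MOD (B.filter (fun z => c z = c x)).card] :=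
      Nat.ModEq.add_left_cancel' _ h1
    have my : y ∈ B.filter (fun z => c z = c x) := by
      rw [mem_filter]; exact ⟨hy, cxy.symm⟩
    have mz : z ∈ B.filter (fun z => c z = c x) := by
      rw [mem_filter]; exact ⟨hz, cxz.symm⟩
    have h3 : f (c x) y = f (c x) z := Nat.ModEq.eq_of_lt_of_lt h2 (hf1 (c x) y my) (hf1 (c x) z mz)
    exact hyz (hf2 (c x) y my z mz h3)

end Pool.Agent.Helper74.LM
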