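import Pool.Agent.Helper74.LM.Tutte

set_option autoImplicit false

/-!
# LM-ObsDich: the three cases of the dichotomy at one label

First a lemma (LARGEST): if `S ⊆ N` and `c` is a labelling with `J.Adj x y` for all `x, y ∈ N \ S` with
different labels, and the number of labels on `N \ S` is at least `max 2 (S.card + 1)`, then
`Obs J N w S R c` holds (for every `w`) with `R = {x ∈ N \ S | c x ≠ a}`, where `a` is a label
with `{x ∈ N \ S | c x = a}` as large as possible (`Finset.exists_max_image`).  Here
`N \ (S ∪ R) = {x ∈ N \ S | c x = a}`, and `R.image c = ((N \ S).image c).erase a`.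

* `obs_even`: `tutteDich` and LARGEST.
* `obs_odd`: take any `u ∈ N` (`N` is nonempty); `N.erase u` has even cardinality.  `tutteDich`
  for `N.erase u` gives a perfect matching, or `S'`, `c`; put `S = insert u S'`, then
  `N \ S = (N.erase u) \ S'` and the number of labels is at least `S'.card + 2 = S.card + 1 ≥ 2`.
* `obs_odd_join`: if there is `u ∈ N`, `u ≠ w`, `¬ J.Adj u w` then argue as in `obs_odd` with this
  `u`.  Otherwise every `u ∈ N` different from `w` is adjacent to `w` in `J`.  If `w ∈ N` apply
  LARGEST with `S = ∅` and the labelling `c x = if x = w then 1 else 0` (two labels, since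
  `N.card ≥ 2`).  If `w ∉ N` then `S = ∅`, `R = {w}`, `c = 0` is an obstruction (`sub` by the second
  alternative; `N \ (S ∪ R) = N` has at least one element).
-/

namespace Pool.Agent.Helper74.LM

open Finset

variable {V : Type} [Fintype V] [DecidableEq V]

omit [Fintype V] in
theorem obs_largest (J : SimpleGraph V) (N S : Finset V) (w : Option V) (c : V → ℕ)
    (hc : ∀ x ∈ N \ S, ∀ y ∈ N \ S, c x ≠ c y → J.Adj x y)
    (h1 : S.card + 1 ≤ ((N \ S).image c).card) (h2 : 2 ≤ ((N \ S).image c).card) :
    ∃ R, Obs J N w S R c := by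
  have hne : ((N \ S).image c).Nonempty := by
    rw [← Finset.card_pos]; omega
  obtain ⟨a, ha, hmax⟩ := Finset.exists_max_image ((N \ S).image c)
    (fun b => ((N \ S).filter (fun x => c x = b)).card) hne
  have hR : N \ (S ∪ (N \ S).filter (fun x => c x ≠ a)) = (N \ S).filter (fun x => c x = a) := by
    ext x
    simp only [Finset.mem_sdiff, Finset.mem_union, Finset.mem_filter]
    tauto
  have himg : ((N \ S).filter (fun x => c x ≠ a)).image c = ((N \ S).image c).erase a := by
    ext b
    simp only [Finset.mem_image, Finset.mem_filter, Finset.mem_erase]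
    constructor
    · rintro ⟨x, ⟨hx, hxa⟩, rfl⟩
      exact ⟨hxa, x, hx, rfl⟩
    · rintro ⟨hb, x, hx, rfl⟩
      exact ⟨x, ⟨hx, hb⟩, rfl⟩
  have hcard : (((N \ S).image c).erase a).card = ((N \ S).image c).card - 1 :=
    Finset.card_erase_of_mem ha
  refine ⟨(N \ S).filter (fun x => c x ≠ a), ?_, ?_, ?_, ?_, ?_, ?_, ?_⟩
  · intro r hr
    exact Or.inl (Finset.mem_sdiff.1 (Finset.mem_filter.1 hr).1).1
  · rw [Finset.disjoint_left]
    intro x hx hx2
    exact (Finset.mem_sdiff.1 (Finset.mem_filter.1 hx2).1).2 hx
  · have : (((N \ S).filter (fun x => c x ≠ a)).image c).Nonempty := by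
      rw [← Finset.card_pos, himg, hcard]; omega
    exact Finset.image_nonempty.1 this
  · rw [himg, hcard]; omega
  · intro r hr x hx h
    exact hc r (Finset.mem_filter.1 hr).1 x (Finset.mem_filter.1 hx).1 (fun e => h e.symm)
  · intro r hr x hx
    rw [hR] at hx
    refine hc r (Finset.mem_filter.1 hr).1 x (Finset.mem_filter.1 hx).1 ?_
    rw [(Finset.mem_filter.1 hx).2]
    exact (Finset.mem_filter.1 hr).2
  · intro b
    rw [hR]
    by_cases hb : b ∈ (N \ S).image c
    · refine le_trans (Finset.card_le_card ?_) (hmax b hb)
      intro x hx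
      rw [Finset.mem_filter] at hx ⊢
      exact ⟨(Finset.mem_filter.1 hx.1).1, hx.2⟩
    · have : ((N \ S).filter (fun x => c x ≠ a)).filter (fun x => c x = b) = ∅ := by
        rw [Finset.filter_eq_empty_iff]
        intro x hx hxb
        exact hb (Finset.mem_image.2 ⟨x, (Finset.mem_filter.1 hx).1, hxb⟩)
      rw [this]; simp

theorem obs_even (J : SimpleGraph V) (N : Finset V) (hN : Even N.card) :
    (∃ M : SimpleGraph V, PM J N M) ∨ ∃ S R c, Obs J N none S R c := by
  rcases tutteDich J N hN with h | ⟨S, _, c, hc, hcard⟩
  · exact Or.inl h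
  · obtain ⟨R, hR⟩ := obs_largest J N S none c hc (by omega) (by omega)
    exact Or.inr ⟨S, R, c, hR⟩

theorem obs_odd_aux (J : SimpleGraph V) (N : Finset V) (hN : Odd N.card) (w : Option V) (u : V)
    (hu : u ∈ N) :
    (∃ M : SimpleGraph V, PM J (N.erase u) M) ∨ ∃ S R c, Obs J N w S R c := by
  have hev : Even (N.erase u).card := by
    rw [Finset.card_erase_of_mem hu]
    exact hN.tsub_odd odd_one
  rcases tutteDich J (N.erase u) hev with h | ⟨S, hS, c, hc, hcard⟩
  · exact Or.inl h
  · have huS : u ∉ S := fun h => Finset.notMem_erase u N (hS h)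
    have hEq : N \ (insert u S) = (N.erase u) \ S := by
      ext x
      simp only [Finset.mem_sdiff, Finset.mem_insert, Finset.mem_erase]
      tauto
    have hSc : (insert u S).card = S.card + 1 := Finset.card_insert_of_notMem huS
    obtain ⟨R, hR⟩ := obs_largest J N (insert u S) w c (by rw [hEq]; exact hc)
      (by rw [hEq, hSc]; omega) (by rw [hEq]; omega)
    exact Or.inr ⟨insert u S, R, c, hR⟩

theorem obs_odd (J : SimpleGraph V) (N : Finset V) (hN : Odd N.card) :
    (∃ u ∈ N, ∃ M : SimpleGraph V, PM J (N.erase u) M) ∨ ∃ S R c, Obs J N none S R c := by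
  have hne : N.Nonempty := Finset.card_pos.1 hN.pos
  obtain ⟨u, hu⟩ := hne
  rcases obs_odd_aux J N hN none u hu with h | h
  · exact Or.inl ⟨u, hu, h⟩
  · exact Or.inr h

theorem obs_odd_join (J : SimpleGraph V) (N : Finset V) (hN : Odd N.card) (h2 : 2 ≤ N.card)
    (w : V) :
    (∃ u ∈ N, u ≠ w ∧ ¬ J.Adj u w ∧ ∃ M : SimpleGraph V, PM J (N.erase u) M) ∨
      ∃ S R c, Obs J N (some w) S R c := by
  by_cases hex : ∃ u ∈ N, u ≠ w ∧ ¬ J.Adj u w
  · obtain ⟨u, hu, huw, hadj⟩ := hex
    rcases obs_odd_aux J N hN (some w) u hu with h | h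
    · exact Or.inl ⟨u, hu, huw, hadj, h⟩
    · exact Or.inr h
  · have hall : ∀ u ∈ N, u ≠ w → J.Adj u w := by
      intro u hu huw
      by_contra h
      exact hex ⟨u, hu, huw, h⟩
    right
    by_cases hw : w ∈ N
    · obtain ⟨v, hv, hvw⟩ : ∃ v ∈ N, v ≠ w := by
        by_contra h
        push Not at h
        have : N ⊆ {w} := fun x hx => Finset.mem_singleton.2 (h x hx)
        have := Finset.card_le_card this
        simp at this
        omega
      have himg : ((N \ (∅ : Finset V)).image (fun x => if x = w then 1 else 0)) = {0, 1} := by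
        ext b
        simp only [Finset.sdiff_empty, Finset.mem_image, Finset.mem_insert, Finset.mem_singleton]
        constructor
        · rintro ⟨x, _, rfl⟩
          by_cases hx : x = w <;> simp [hx]
        · rintro (rfl | rfl)
          · exact ⟨v, hv, by simp [hvw]⟩
          · exact ⟨w, hw, by simp⟩
      obtain ⟨R, hR⟩ := obs_largest J N ∅ (some w) (fun x => if x = w then 1 else 0)
        (by
          intro x hx y hy hne
          simp only [Finset.sdiff_empty] at hx hy
          by_cases hxw : x = w
          · subst hxw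
            by_cases hyw : y = x
            · subst hyw; exact absurd rfl hne
            · exact (hall y hy hyw).symm
          · by_cases hyw : y = w
            · subst hyw
              exact hall x hx hxw
            · simp [hxw, hyw] at hne)
        (by rw [himg]; simp) (by rw [himg]; simp)
      exact ⟨∅, R, _, hR⟩
    · refine ⟨∅, {w}, fun _ => 0, ?_, ?_, ?_, ?_, ?_, ?_, ?_⟩
      · intro r hr
        rw [Finset.mem_singleton] at hr
        exact Or.inr (by rw [hr])
      · simp
      · simp
      · simp
      · intro r _ x _ h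
        exact absurd rfl h
      · intro r hr x hx
        rw [Finset.mem_singleton] at hr
        subst hr
        simp only [Finset.mem_sdiff, Finset.mem_union, Finset.mem_singleton, Finset.notMem_empty,
          false_or] at hx
        exact (hall x hx.1 hx.2).symm
      · intro a
        have : N \ (∅ ∪ {w}) = N := by
          ext x
          simp only [Finset.mem_sdiff, Finset.mem_union, Finset.mem_singleton, Finset.notMem_empty,
            false_or]
          constructor
          · exact fun h => h.1
          · exact fun h => ⟨h, fun e => hw (e ▸ h)⟩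
        rw [this]
        refine le_trans (Finset.card_filter_le _ _) ?_
        rw [Finset.card_singleton]
        omega

end Pool.Agent.Helper74.LM
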