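import Pool.Agent.Helper74.LM.MatchStar

set_option autoImplicit false

/-!
# LM-StepB: processing one label, the case odd with a processed partner

Notation `N k = nb H k \ K`, `J = off H K ⊔ New`.  A label `j ∈ L` is UNRESOLVED if `(N j).card` is odd
and it has no `P`-neighbour in `L`; then the edge `j (u j)` is not used (field `used` of `St`).

`step_join`: `(N k).erase u₀` is matched by `M` (lifted at `k`), and the edge `u₀ (u j)` is added, routed
by `u₀ k, k j, j (u j)`:  `New' = (New ⊔ M) ⊔ fromEdgeSet {s(u₀, u j)}`,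
`U' = (U ⊔ star k ((N k).erase u₀)) ⊔ fromEdgeSet {s(u₀, k), s(k, j), s(j, u j)}`,
`u' = Function.update u k u₀`.
The edges `k u₀`, `k j`, `j (u j)` have not been used so far: the first two since `k ∉ L` (fields `used`,
`usedK`), the third since `j` was unresolved: `(N j).card` is odd by `hP` and its only `P`-neighbour is `k`,
by `huniq`, which is not in `L`.
Now `j` and `k` are resolved, the other labels keep their status: a label `i ≠ j` of `L` with
`P.Adj i k` would give `i = j` by `huniq`.  The new edge is not in `New`, not in `H` (hypothesis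
`hnadj`; `u₀` and `u j` are outside `K`) and not in `M` (`M` does not touch `u₀`).
Use `imm_sup`, `imm_star`, `imm_join`, `card_nb_sup`, `card_nb_star`, `card_nb_join`.
-/

namespace Pool.Agent.Helper74.LM

open Finset

variable {V : Type} [Fintype V] [DecidableEq V]

theorem step_join (H : SimpleGraph V) (K : Finset V) (P : SimpleGraph V) (L : Finset V) (u : V → V)
    (New U : SimpleGraph V) (k : V) (M : SimpleGraph V)
    (hP : ∀ x y, P.Adj x y → x ∈ K ∧ Odd (nb H x \ K).card)
    (huniq : ∀ x y z, P.Adj x y → P.Adj x z → y = z)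
    (hs : St H K P L u New U) (hk : k ∈ K) (hkL : k ∉ L)
    (j : V) (hj : j ∈ L) (hkj : P.Adj k j)
    (u₀ : V) (hu₀ : u₀ ∈ nb H k \ K) (hne : u₀ ≠ u j)
    (hnadj : ¬ (off H K ⊔ New).Adj u₀ (u j))
    (hM : PM (off H K ⊔ New) ((nb H k \ K).erase u₀) M) :
    ∃ u' New' U', St H K P (insert k L) u' New' U' := by
  classical
  have hjK : j ∈ K := (hP j k hkj.symm).1
  have hjodd : Odd (nb H j \ K).card := (hP j k hkj.symm).2
  have hjk : j ≠ k := fun h => hkL (h ▸ hj)
  have hu0 : H.Adj k u₀ ∧ u₀ ∉ K := by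
    rw [mem_sdiff, mem_nb] at hu₀
    exact hu₀
  have huj : H.Adj j (u j) ∧ u j ∉ K := by
    have h := hs.left j hj hjodd
    rw [mem_sdiff, mem_nb] at h
    exact h
  have h0k : u₀ ≠ k := fun h => hu0.2 (h ▸ hk)
  have h0j : u₀ ≠ j := fun h => hu0.2 (h ▸ hjK)
  have hujk : u j ≠ k := fun h => huj.2 (h.symm ▸ hk)
  have hujj : u j ≠ j := fun h => huj.2 (h.symm ▸ hjK)
  have hfree : ∀ i ∈ L, ¬ P.Adj j i := fun i hi hadj =>
    hkL (huniq j i k hadj hkj.symm ▸ hi)
  set X := (nb H k \ K).erase u₀ with hX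
  have memX : ∀ x, x ∈ X ↔ x ≠ u₀ ∧ H.Adj k x ∧ x ∉ K := by
    intro x
    rw [hX, mem_erase, mem_sdiff, mem_nb]
  have hkX : k ∉ X := fun h => ((memX k).1 h).2.2 hk
  set E1 : SimpleGraph V := SimpleGraph.fromEdgeSet {s(u₀, u j)} with hE1
  set E2 : SimpleGraph V := SimpleGraph.fromEdgeSet {s(u₀, k), s(k, j), s(j, u j)} with hE2
  have adjE1 : ∀ x y, E1.Adj x y → (x = u₀ ∧ y = u j) ∨ (x = u j ∧ y = u₀) := by
    intro x y h
    rw [hE1, SimpleGraph.fromEdgeSet_adj] at h
    have := h.1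
    simpa only [Set.mem_singleton_iff, Sym2.eq_iff] using this
  have adjE2 : ∀ x y, E2.Adj x y ↔ ((x = u₀ ∧ y = k) ∨ (x = k ∧ y = u₀)) ∨
      ((x = k ∧ y = j) ∨ (x = j ∧ y = k)) ∨ ((x = j ∧ y = u j) ∨ (x = u j ∧ y = j)) := by
    intro x y
    rw [hE2, SimpleGraph.fromEdgeSet_adj]
    simp only [Set.mem_insert_iff, Set.mem_singleton_iff, Sym2.eq_iff]
    constructor
    · exact fun h => h.1
    · intro h
      refine ⟨h, ?_⟩
      rcases h with (⟨rfl, rfl⟩ | ⟨rfl, rfl⟩) | (⟨rfl, rfl⟩ | ⟨rfl, rfl⟩) |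
        (⟨rfl, rfl⟩ | ⟨rfl, rfl⟩)
      · exact h0k
      · exact h0k.symm
      · exact hjk.symm
      · exact hjk
      · exact hujj.symm
      · exact hujj
  have adjS : ∀ x y, (star k X).Adj x y → (x = k ∧ y ∈ X) ∨ (y = k ∧ x ∈ X) := fun x y h => h.2
  -- disjointness
  have d1 : EDisj New M := by
    intro x y h1 h2
    exact (hM.sub x y h2).2.2 (Or.inr h1)
  have d2 : EDisj U (star k X) := by
    intro x y h1 h2
    rcases adjS x y h2 with ⟨rfl, hy⟩ | ⟨rfl, hx⟩
    · exact hkL ((hs.used y ((memX y).1 hy).2.2 x).1 h1).1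
    · exact hkL ((hs.used x ((memX x).1 hx).2.2 y).1 h1.symm).1
  have d3 : EDisj (New ⊔ M) E1 := by
    have key : ¬ (New ⊔ M).Adj u₀ (u j) := by
      intro h
      rcases h with h | h
      · exact hnadj (Or.inr h)
      · exact ((memX u₀).1 (hM.sub _ _ h).1).1 rfl
    intro x y h1 h2
    rcases adjE1 x y h2 with ⟨rfl, rfl⟩ | ⟨rfl, rfl⟩
    · exact key h1
    · exact key h1.symm
  have notU0 : ¬ (U ⊔ star k X).Adj k u₀ := by
    intro h
    rcases h with h | h
    · exact hkL ((hs.used u₀ hu0.2 k).1 h).1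
    · rcases adjS _ _ h with ⟨_, h⟩ | ⟨h, _⟩
      · exact ((memX u₀).1 h).1 rfl
      · exact h0k h
  have notUkj : ¬ (U ⊔ star k X).Adj k j := by
    intro h
    rcases h with h | h
    · exact hkL (hs.usedK k hk j hjK h).2.1
    · rcases adjS _ _ h with ⟨_, h⟩ | ⟨h, _⟩
      · exact ((memX j).1 h).2.2 hjK
      · exact hjk h
  have notUuj : ¬ (U ⊔ star k X).Adj j (u j) := by
    intro h
    rcases h with h | h
    · exact ((hs.used (u j) huj.2 j).1 h).2.2 ⟨hjodd, hfree, rfl⟩
    · rcases adjS _ _ h with ⟨h, _⟩ | ⟨h, _⟩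
      · exact hjk h
      · exact hujk h
  have d4 : EDisj (U ⊔ star k X) E2 := by
    intro x y h1 h2
    rcases (adjE2 x y).1 h2 with (⟨h3, h4⟩ | ⟨h3, h4⟩) | (⟨h3, h4⟩ | ⟨h3, h4⟩) |
        (⟨h3, h4⟩ | ⟨h3, h4⟩)
    · rw [h3, h4] at h1
      exact notU0 h1.symm
    · rw [h3, h4] at h1
      exact notU0 h1
    · rw [h3, h4] at h1
      exact notUkj h1
    · rw [h3, h4] at h1
      exact notUkj h1.symm
    · rw [h3, h4] at h1
      exact notUuj h1
    · rw [h3, h4] at h1
      exact notUuj h1.symm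
  refine ⟨Function.update u k u₀, (New ⊔ M) ⊔ E1, (U ⊔ star k X) ⊔ E2, ?_⟩
  have hstar := imm_star (off H K ⊔ New) M X k hkX hM
  have hjoin := imm_join u₀ (u j) j k h0k hjk.symm hujj.symm
  have hnotH : ¬ H.Adj u₀ (u j) := fun h => hnadj (Or.inl ⟨hu0.2, huj.2, h⟩)
  constructor
  · -- LK
    intro x hx
    rcases mem_insert.1 hx with rfl | hx
    · exact hk
    · exact hs.LK hx
  · -- imm
    exact imm_sup (imm_sup hs.imm hstar d1 d2) hjoin d3 d4
  · -- new
    intro x y h
    rcases h with (h | h) | h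
    · obtain ⟨h1, h2, i, hi, h3⟩ := hs.new x y h
      exact ⟨h1, h2, i, mem_insert_of_mem hi, h3⟩
    · obtain ⟨h1, h2, h3⟩ := hM.sub x y h
      rw [memX] at h1 h2
      refine ⟨h1.2.2, fun h4 => h3 (Or.inl ⟨h1.2.2, h2.2.2, h4⟩), k, mem_insert_self _ _, h1.2.1⟩
    · rcases adjE1 x y h with ⟨rfl, rfl⟩ | ⟨rfl, rfl⟩
      · exact ⟨hu0.2, hnotH, k, mem_insert_self _ _, hu0.1⟩
      · exact ⟨huj.2, fun h => hnotH h.symm, j, mem_insert_of_mem hj, huj.1⟩
  · -- deg
    intro x hx
    have hxk : x ≠ k := fun h => hx (h ▸ hk)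
    have hxj : x ≠ j := fun h => hx (h ▸ hjK)
    rw [card_nb_sup d3, card_nb_sup d4, card_nb_sup d1, card_nb_sup d2, hs.deg x hx,
      card_nb_star (off H K ⊔ New) M X k hkX hM x hxk,
      card_nb_join u₀ (u j) j k x hne h0k h0j hujk hujj hxk hxj]
  · -- used
    intro x hx i
    have hxk : x ≠ k := fun h => hx (h ▸ hk)
    have hxj : x ≠ j := fun h => hx (h ▸ hjK)
    have hU := hs.used x hx i
    have hsup : ((U ⊔ star k X) ⊔ E2).Adj i x ↔ (U.Adj i x ∨ (star k X).Adj i x) ∨ E2.Adj i x :=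
      Iff.rfl
    rw [hsup, hU, adjE2]
    have hst : (star k X).Adj i x ↔ i = k ∧ x ∈ X := by
      constructor
      · intro h
        rcases adjS _ _ h with h | ⟨h, _⟩
        · exact h
        · exact absurd h hxk
      · rintro ⟨rfl, h⟩
        exact ⟨hxk.symm, Or.inl ⟨rfl, h⟩⟩
    rw [hst, memX]
    by_cases hik : i = k
    · subst hik
      constructor
      · rintro ((h | h) | h)
        · exact absurd h.1 hkL
        · exact ⟨mem_insert_self _ _, h.2.2.1, fun h' => h'.2.1 j (mem_insert_of_mem hj) hkj⟩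
        · rcases h with (⟨h3, h4⟩ | ⟨h3, h4⟩) | (⟨h3, h4⟩ | ⟨h3, h4⟩) | (⟨h3, h4⟩ | ⟨h3, h4⟩)
          · exact absurd h4 hxk
          · rw [h4]
            exact ⟨mem_insert_self _ _, hu0.1, fun h' => h'.2.1 j (mem_insert_of_mem hj) hkj⟩
          · exact absurd h4 hxj
          · exact absurd h4 hxk
          · exact absurd h3.symm hjk
          · exact absurd h4 hxj
      · rintro ⟨_, h2, _⟩
        by_cases h0 : x = u₀
        · exact Or.inr (Or.inl (Or.inr ⟨rfl, h0⟩))
        · exact Or.inl (Or.inr ⟨rfl, h0, h2, hx⟩)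
    · by_cases hij : i = j
      · subst hij
        constructor
        · rintro ((h | h) | h)
          · exact ⟨mem_insert_of_mem hj, h.2.1, fun h' => h'.2.1 k (mem_insert_self _ _) hkj.symm⟩
          · exact absurd h.1 hik
          · rcases h with (⟨h3, h4⟩ | ⟨h3, h4⟩) | (⟨h3, h4⟩ | ⟨h3, h4⟩) | (⟨h3, h4⟩ | ⟨h3, h4⟩)
            · exact absurd h4 hxk
            · exact absurd h3 hik
            · exact absurd h4 hxj
            · exact absurd h4 hxk
            · rw [h4]
              exact ⟨mem_insert_of_mem hj, huj.1,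
                fun h' => h'.2.1 k (mem_insert_self _ _) hkj.symm⟩
            · exact absurd h4 hxj
        · rintro ⟨_, h2, _⟩
          by_cases h0 : x = u i
          · exact Or.inr (Or.inr (Or.inr (Or.inl ⟨rfl, h0⟩)))
          · exact Or.inl (Or.inl ⟨hj, h2, fun h' => h0 h'.2.2⟩)
      · have hupd : Function.update u k u₀ i = u i := Function.update_of_ne hik _ _
        rw [hupd]
        have hins : i ∈ insert k L ↔ i ∈ L := by
          rw [mem_insert]
          exact ⟨fun h => h.resolve_left hik, Or.inr⟩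
        have hall : (∀ i' ∈ insert k L, ¬ P.Adj i i') ↔ ∀ i' ∈ L, ¬ P.Adj i i' := by
          constructor
          · exact fun h i' hi' => h i' (mem_insert_of_mem hi')
          · intro h i' hi' hadj
            rcases mem_insert.1 hi' with rfl | hi'
            · exact hij (huniq i' i j hadj.symm hkj)
            · exact h i' hi' hadj
        rw [hins, hall]
        constructor
        · rintro ((h | h) | h)
          · exact h
          · exact absurd h.1 hik
          · rcases h with (⟨h3, h4⟩ | ⟨h3, h4⟩) | (⟨h3, h4⟩ | ⟨h3, h4⟩) | (⟨h3, h4⟩ | ⟨h3, h4⟩)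
            · exact absurd h4 hxk
            · exact absurd h3 hik
            · exact absurd h4 hxj
            · exact absurd h4 hxk
            · exact absurd h3 hij
            · exact absurd h4 hxj
        · exact fun h => Or.inl (Or.inl h)
  · -- usedK
    intro i hi i' hi' h
    rcases h with (h | h) | h
    · obtain ⟨h1, h2, h3⟩ := hs.usedK i hi i' hi' h
      exact ⟨h1, mem_insert_of_mem h2, mem_insert_of_mem h3⟩
    · rcases adjS _ _ h with ⟨_, h⟩ | ⟨_, h⟩
      · exact absurd hi' ((memX _).1 h).2.2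
      · exact absurd hi ((memX _).1 h).2.2
    · rcases (adjE2 i i').1 h with (⟨h3, h4⟩ | ⟨h3, h4⟩) | (⟨h3, h4⟩ | ⟨h3, h4⟩) |
        (⟨h3, h4⟩ | ⟨h3, h4⟩)
      · exact absurd (h3 ▸ hi) hu0.2
      · exact absurd (h4 ▸ hi') hu0.2
      · rw [h3, h4]
        exact ⟨hkj, mem_insert_self _ _, mem_insert_of_mem hj⟩
      · rw [h3, h4]
        exact ⟨hkj.symm, mem_insert_of_mem hj, mem_insert_self _ _⟩
      · exact absurd (h4 ▸ hi') huj.2
      · exact absurd (h3 ▸ hi) huj.2
  · -- left
    intro i hi hodd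
    by_cases hik : i = k
    · subst hik
      rw [Function.update_self]
      exact hu₀
    · rw [Function.update_of_ne hik]
      exact hs.left i ((mem_insert.1 hi).resolve_left hik) hodd

end Pool.Agent.Helper74.LM
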