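import Pool.Agent.Helper74.LM.StepA
import Pool.Agent.Helper74.LM.StepB
import Pool.Agent.Helper74.LM.ObsDich

set_option autoImplicit false

/-!
# LM-Process: processing all labels of the list

Induction on `l1` (prove the statement `∀ l2, l = l1 ++ l2 → ...`, or first prove the one-label
dichotomy and then iterate over the list): START with `L = ∅`, `u = id`, `New = U = ⊥`: this is a state
(`imm_bot`; all other fields are trivial, `nb ⊥ x = ∅`).

ONE LABEL.  Let `l = l1 ++ k :: l2`, `L = l1.toFinset`, `K = l.toFinset` and `St H K P L u New U`.
Then `k ∉ L` (nodup).  Either the state can be extended to `insert k L`, or the second alternative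
holds for this decomposition:

* `(nb H k \ K).card` even: `obs_even` for `J = off H K ⊔ New`, `N = nb H k \ K`, and `step_even`;
* odd, no `P`-neighbour of `k` in `L`: `obs_odd` and `step_odd`;
* odd, with a `P`-neighbour `j ∈ L`: `obs_odd_join` with `w = u j` and `step_join` (note `¬ J.Adj u₀ w`).
  If it fails the extra vertex `w = u j` satisfies `w ∉ K` and `H.Adj j w`, field `left` of `St`
  (`(nb H j \ K).card` is odd by `hP`).

Note that `insert k l1.toFinset = (l1 ++ [k]).toFinset`.  The statement of the alternative: the
obstruction `Obs J N w S R c` with `w` either `none` or `some` vertex outside `K` adjacent in `H` to a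
vertex of `L`.
-/

namespace Pool.Agent.Helper74.LM

open Finset

variable {V : Type} [Fintype V] [DecidableEq V]

theorem process (H : SimpleGraph V) (l : List V) (hl : l.Nodup) (P : SimpleGraph V)
    (hP : ∀ x y, P.Adj x y → x ∈ l.toFinset ∧ Odd (nb H x \ l.toFinset).card)
    (huniq : ∀ x y z, P.Adj x y → P.Adj x z → y = z)
    (h2 : ∀ k ∈ l, 2 ≤ (nb H k \ l.toFinset).card) :
    (∃ u New U, St H l.toFinset P l.toFinset u New U) ∨
      ∃ l1 k l2, l = l1 ++ k :: l2 ∧ ∃ u New U, St H l.toFinset P l1.toFinset u New U ∧
        ∃ w S R c, Obs (off H l.toFinset ⊔ New) (nb H k \ l.toFinset) w S R c ∧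
          ∀ x, w = some x → x ∉ l.toFinset ∧ ∃ j ∈ l1, H.Adj j x := by
  have key : ∀ l1 l2 : List V, l = l1 ++ l2 →
      (∃ u New U, St H l.toFinset P l1.toFinset u New U) ∨
      ∃ l1 k l2, l = l1 ++ k :: l2 ∧ ∃ u New U, St H l.toFinset P l1.toFinset u New U ∧
        ∃ w S R c, Obs (off H l.toFinset ⊔ New) (nb H k \ l.toFinset) w S R c ∧
          ∀ x, w = some x → x ∉ l.toFinset ∧ ∃ j ∈ l1, H.Adj j x := by
    intro l1
    induction l1 using List.reverseRecOn with
    | nil =>
      intro l2 _
      left
      refine ⟨id, ⊥, ⊥, ?_⟩
      refine ⟨?_, imm_bot _, ?_, ?_, ?_, ?_, ?_⟩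
      · simp
      · intro x y h
        exact absurd h (by simp)
      · intro x _
        rfl
      · intro x _ j
        constructor
        · intro h
          exact absurd h (by simp)
        · intro h
          exact absurd h.1 (by simp)
      · intro i _ j _ h
        exact absurd h (by simp)
      · intro j hj
        exact absurd hj (by simp)
    | append_singleton l1 k ih =>
      intro l2 hl2
      have hl3 : l = l1 ++ k :: l2 := by rw [hl2]; simp
      rcases ih (k :: l2) hl3 with ⟨u, New, U, hs⟩ | h
      · have hkmem : k ∈ l := by rw [hl3]; simp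
        have hk : k ∈ l.toFinset := List.mem_toFinset.2 hkmem
        have hkL : k ∉ l1.toFinset := by
          rw [List.mem_toFinset]
          intro hk1
          rw [hl3, List.nodup_append] at hl
          exact hl.2.2 k hk1 k (by simp) rfl
        have hins : (l1 ++ [k]).toFinset = insert k l1.toFinset := by
          ext x
          simp
        rw [hins]
        rcases Nat.even_or_odd (nb H k \ l.toFinset).card with heven | hodd
        · rcases obs_even (off H l.toFinset ⊔ New) _ heven with ⟨M, hM⟩ | ⟨S, R, c, hobs⟩
          · left
            exact step_even H l.toFinset P l1.toFinset u New U k M hP hs hk hkL heven hM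
          · right
            exact ⟨l1, k, l2, hl3, u, New, U, hs, none, S, R, c, hobs,
              fun x hx => absurd hx (by simp)⟩
        · by_cases hfree : ∀ j ∈ l1.toFinset, ¬ P.Adj k j
          · rcases obs_odd (off H l.toFinset ⊔ New) _ hodd with ⟨u₀, hu₀, M, hM⟩ | ⟨S, R, c, hobs⟩
            · left
              exact step_odd H l.toFinset P l1.toFinset u New U k M hs hk hkL hodd hfree u₀ hu₀ hM
            · right
              exact ⟨l1, k, l2, hl3, u, New, U, hs, none, S, R, c, hobs,
                fun x hx => absurd hx (by simp)⟩
          · push Not at hfree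
            obtain ⟨j, hj, hkj⟩ := hfree
            rcases obs_odd_join (off H l.toFinset ⊔ New) _ hodd (h2 k hkmem) (u j) with
              ⟨u₀, hu₀, hne, hnadj, M, hM⟩ | ⟨S, R, c, hobs⟩
            · left
              exact step_join H l.toFinset P l1.toFinset u New U k M hP huniq hs hk hkL j hj hkj
                u₀ hu₀ hne hnadj hM
            · right
              refine ⟨l1, k, l2, hl3, u, New, U, hs, some (u j), S, R, c, hobs, ?_⟩
              intro x hx
              have hx' : u j = x := by simpa using hx
              subst hx'
              have hlf := hs.left j hj (hP j k hkj.symm).2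
              rw [mem_sdiff, mem_nb] at hlf
              exact ⟨hlf.2, j, List.mem_toFinset.1 hj, hlf.1⟩
      · exact Or.inr h
  exact key l [] (by simp)

end Pool.Agent.Helper74.LM
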