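import Pool.Agent.Helper74.LM.Basic

set_option autoImplicit false

/-!
# LM-Routes: cliques from direct edges and paths of length two

PROOF.  Put `F e = {s(x, y)}` if `e = s(x, y)` with `G.Adj x y`, and `F e = {s(x, w x y), s(w x y, y)}`
otherwise.  (`F` is defined on `Sym2 V` by `Sym2.lift`, symmetric because of `hsym`; or take
`F e = {f | ∃ x y, e = s(x, y) ∧ (if G.Adj x y then f = s(x, y) else f = s(x, w x y) ∨ f = s(y, w x y))}`,
which needs no lift.)  The three conditions of `Imm`: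

* `F e ⊆ G.edgeSet`: by `h`.
* disjointness: a set of the first kind consists of one edge inside `B`; the edges of the second kind
  join a vertex of `B` to a vertex outside `B`.  If `s(x, w x y) = s(x', w x' y')` with `x, x' ∈ B`,
  `w x y, w x' y' ∉ B` then `x = x'` and `w x y = w x y'`, and `hinj` gives `y = y'`.
* connectivity: `Conn.of_mem` (twice, `Conn.trans`, in the second case; note `x ≠ w x y` because
  `G.Adj x (w x y)`).
-/

namespace Pool.Agent.Helper74.LM

open Finset

theorem routes {V : Type} (G : SimpleGraph V) (B : Finset V) (w : V → V → V)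
    (hsym : ∀ x y, w x y = w y x)
    (h : ∀ x ∈ B, ∀ y ∈ B, x ≠ y →
      G.Adj x y ∨ (w x y ∉ B ∧ G.Adj x (w x y) ∧ G.Adj y (w x y)))
    (hinj : ∀ x ∈ B, ∀ y ∈ B, ∀ z ∈ B, x ≠ y → x ≠ z → y ≠ z → ¬ G.Adj x y → ¬ G.Adj x z →
      w x y ≠ w x z) :
    Imm (cliqueOn B) G := by
  classical
  refine ⟨fun e => {f | ∃ x y, e = s(x, y) ∧
    (if G.Adj x y then f = s(x, y) else f = s(x, w x y) ∨ f = s(y, w x y))}, ?_, ?_, ?_⟩
  · intro e he f hf
    induction e using Sym2.ind with
    | _ a b =>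
    obtain ⟨x, y, hxy, hf⟩ := hf
    have hab : a ∈ B ∧ b ∈ B ∧ a ≠ b := he
    have hxyB : x ∈ B ∧ y ∈ B ∧ x ≠ y := by
      rcases Sym2.eq_iff.1 hxy with ⟨rfl, rfl⟩ | ⟨rfl, rfl⟩
      · exact hab
      · exact ⟨hab.2.1, hab.1, hab.2.2.symm⟩
    obtain ⟨hx, hy, hne⟩ := hxyB
    by_cases hadj : G.Adj x y
    · rw [if_pos hadj] at hf
      subst hf
      exact hadj
    · rw [if_neg hadj] at hf
      obtain ⟨_, h1, h2⟩ := (h x hx y hy hne).resolve_left hadj
      rcases hf with rfl | rfl
      · exact h1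
      · exact h2
  · intro e he e' he' hee
    rw [Set.disjoint_left]
    intro f hf hf'
    apply hee
    induction e using Sym2.ind with
    | _ a b =>
    induction e' using Sym2.ind with
    | _ a' b' =>
    obtain ⟨x, y, hxy, hf⟩ := hf
    obtain ⟨x', y', hxy', hf'⟩ := hf'
    rw [hxy, hxy']
    have hab : a ∈ B ∧ b ∈ B ∧ a ≠ b := he
    have hab' : a' ∈ B ∧ b' ∈ B ∧ a' ≠ b' := he'
    have hxyB : x ∈ B ∧ y ∈ B ∧ x ≠ y := by
      rcases Sym2.eq_iff.1 hxy with ⟨rfl, rfl⟩ | ⟨rfl, rfl⟩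
      · exact hab
      · exact ⟨hab.2.1, hab.1, hab.2.2.symm⟩
    have hxyB' : x' ∈ B ∧ y' ∈ B ∧ x' ≠ y' := by
      rcases Sym2.eq_iff.1 hxy' with ⟨rfl, rfl⟩ | ⟨rfl, rfl⟩
      · exact hab'
      · exact ⟨hab'.2.1, hab'.1, hab'.2.2.symm⟩
    obtain ⟨hx, hy, hne⟩ := hxyB
    obtain ⟨hx', hy', hne'⟩ := hxyB'
    -- the crucial comparison of two edges of the second kind
    have key : ∀ p q p' q' : V, p ∈ B → q ∈ B → p ≠ q → ¬ G.Adj p q → p' ∈ B → q' ∈ B →
        p' ≠ q' → ¬ G.Adj p' q' → s(p, w p q) = s(p', w p' q') → s(p, q) = s(p', q') := by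
      intro p q p' q' hp hq hpq hn hp' hq' hpq' hn' heq
      have hw : w p q ∉ B := ((h p hp q hq hpq).resolve_left hn).1
      have hw' : w p' q' ∉ B := ((h p' hp' q' hq' hpq').resolve_left hn').1
      rcases Sym2.eq_iff.1 heq with ⟨h1, h2⟩ | ⟨h1, _⟩
      · subst h1
        by_cases hqq : q = q'
        · rw [hqq]
        · exact absurd h2 (hinj p hp q hq q' hq' hpq hpq' hqq hn hn')
      · exact absurd (h1 ▸ hp) hw'
    -- an edge of the second kind is not inside `B`
    have out : ∀ p q u v : V, p ∈ B → q ∈ B → p ≠ q → ¬ G.Adj p q → u ∈ B → v ∈ B →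
        s(p, w p q) = s(u, v) → False := by
      intro p q u v hp hq hpq hn hu hv heq
      have hw : w p q ∉ B := ((h p hp q hq hpq).resolve_left hn).1
      rcases Sym2.eq_iff.1 heq with ⟨_, h2⟩ | ⟨_, h2⟩
      · exact hw (h2 ▸ hv)
      · exact hw (h2 ▸ hu)
    have nsymm : ∀ p q : V, ¬ G.Adj p q → ¬ G.Adj q p := fun p q hn hq => hn hq.symm
    by_cases hadj : G.Adj x y
    · rw [if_pos hadj] at hf
      by_cases hadj' : G.Adj x' y'
      · rw [if_pos hadj'] at hf'
        rw [← hf, ← hf']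
      · rw [if_neg hadj'] at hf'
        exfalso
        rcases hf' with hf' | hf'
        · exact out x' y' x y hx' hy' hne' hadj' hx hy (hf' ▸ hf)
        · rw [hsym x' y'] at hf'
          exact out y' x' x y hy' hx' hne'.symm (nsymm _ _ hadj') hx hy (hf' ▸ hf)
    · rw [if_neg hadj] at hf
      by_cases hadj' : G.Adj x' y'
      · rw [if_pos hadj'] at hf'
        exfalso
        rcases hf with hf | hf
        · exact out x y x' y' hx hy hne hadj hx' hy' (hf ▸ hf')
        · rw [hsym x y] at hf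
          exact out y x x' y' hy hx hne.symm (nsymm _ _ hadj) hx' hy' (hf ▸ hf')
      · rw [if_neg hadj'] at hf'
        rcases hf with hf | hf <;> rcases hf' with hf' | hf'
        · exact key x y x' y' hx hy hne hadj hx' hy' hne' hadj' (hf ▸ hf')
        · rw [hsym x' y'] at hf'
          rw [Sym2.eq_swap (a := x') (b := y')]
          exact key x y y' x' hx hy hne hadj hy' hx' hne'.symm (nsymm _ _ hadj') (hf ▸ hf')
        · rw [hsym x y] at hf
          rw [Sym2.eq_swap (a := x) (b := y)]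
          exact key y x x' y' hy hx hne.symm (nsymm _ _ hadj) hx' hy' hne' hadj' (hf ▸ hf')
        · rw [hsym x y] at hf
          rw [hsym x' y'] at hf'
          rw [Sym2.eq_swap (a := x) (b := y), Sym2.eq_swap (a := x') (b := y')]
          exact key y x y' x' hy hx hne.symm (nsymm _ _ hadj) hy' hx' hne'.symm
            (nsymm _ _ hadj') (hf ▸ hf')
  · intro x y hxy
    obtain ⟨hx, hy, hne⟩ := hxy
    by_cases hadj : G.Adj x y
    · apply Conn.of_mem hne
      refine ⟨x, y, rfl, ?_⟩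
      rw [if_pos hadj]
    · obtain ⟨_, h1, h2⟩ := (h x hx y hy hne).resolve_left hadj
      refine Conn.trans (y := w x y) ?_ (Conn.symm ?_)
      · apply Conn.of_mem h1.ne
        refine ⟨x, y, rfl, ?_⟩
        rw [if_neg hadj]
        exact Or.inl rfl
      · apply Conn.of_mem h2.ne
        refine ⟨x, y, rfl, ?_⟩
        rw [if_neg hadj]
        exact Or.inr rfl

end Pool.Agent.Helper74.LM
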