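import Pool.Agent.Helper74.LM.MatchStar

set_option autoImplicit false

/-!
# LM-StepA: processing one label, the cases even and odd without a processed partner

Notation `N k = nb H k \ K`, `J = off H K ⊔ New`.  A label `j ∈ L` is UNRESOLVED if `(N j).card` is odd
and it has no `P`-neighbour in `L`; then the edge `j (u j)` is not used (field `used` of `St`).

* `step_even`: `New' = New ⊔ M`, `U' = U ⊔ star k (N k)`, `u' = u`.  `EDisj New M` because edges of `M` are
  not edges of `J`; `EDisj U (star k (N k))` because an edge `k x` of `U` with `x ∉ K` would need `k ∈ L`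
  (field `used`).  Immersion by `imm_sup` and `imm_star`, degrees by `card_nb_sup` and `card_nb_star`
  (`x ≠ k` because `k ∈ K`).  Since `(N k).card` is even `k` has no `P`-neighbour (hypothesis `hP`), so the
  unresolved labels are the same as before (`P` is symmetric).
* `step_odd`: `N k \ {u₀}` is matched, `U' = U ⊔ star k ((N k).erase u₀)`,
  `u' = Function.update u k u₀`; `k` has no `P`-neighbour in `L`, so the old labels keep their status (`P` is
  symmetric) and `k` is unresolved.
-/

namespace Pool.Agent.Helper74.LM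

open Finset

variable {V : Type} [Fintype V] [DecidableEq V]

omit [Fintype V] [DecidableEq V] in
/-- outside `K` the star at `k` only has edges at `k` -/
lemma star_adj_out {K : Finset V} {k x j : V} {X : Finset V} (hk : k ∈ K) (hx : x ∉ K) :
    (star k X).Adj j x ↔ j = k ∧ x ∈ X := by
  constructor
  · rintro ⟨_, h | h⟩
    · exact h
    · exact absurd (h.1 ▸ hk) hx
  · rintro ⟨rfl, h⟩
    exact ⟨fun h2 => hx (h2 ▸ hk), Or.inl ⟨rfl, h⟩⟩

omit [Fintype V] [DecidableEq V] in
lemma edisj_new {J New M : SimpleGraph V} {X : Finset V} (hM : PM (J ⊔ New) X M) :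
    EDisj New M := by
  intro x y h1 h2
  exact (hM.sub x y h2).2.2 (Or.inr h1)

lemma edisj_star {H : SimpleGraph V} {K : Finset V} {P : SimpleGraph V} {L : Finset V} {u : V → V}
    {New U : SimpleGraph V} {k : V} {X : Finset V} (hs : St H K P L u New U) (hkL : k ∉ L)
    (hX : ∀ x ∈ X, x ∉ K) : EDisj U (star k X) := by
  intro x y h1 h2
  rcases h2.2 with h | h
  · obtain ⟨rfl, hy⟩ := h
    exact hkL ((hs.used y (hX y hy) x).1 h1).1
  · obtain ⟨rfl, hx⟩ := h
    exact hkL ((hs.used x (hX x hx) y).1 h1.symm).1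

lemma new_step {H : SimpleGraph V} {K : Finset V} {P : SimpleGraph V} {L : Finset V} {u : V → V}
    {New U : SimpleGraph V} {k : V} {X : Finset V} {M : SimpleGraph V}
    (hs : St H K P L u New U) (hM : PM (off H K ⊔ New) X M)
    (hX : ∀ x ∈ X, x ∈ nb H k \ K) : ∀ x y, (New ⊔ M).Adj x y →
      x ∉ K ∧ ¬ H.Adj x y ∧ ∃ k' ∈ insert k L, H.Adj k' x := by
  intro x y h
  rcases h with h | h
  · obtain ⟨h1, h2, j, hj, h3⟩ := hs.new x y h
    exact ⟨h1, h2, j, mem_insert_of_mem hj, h3⟩
  · obtain ⟨hx, hy, hn⟩ := hM.sub x y h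
    have h1 := mem_sdiff.1 (hX x hx)
    have h2 := mem_sdiff.1 (hX y hy)
    refine ⟨h1.2, fun h3 => hn (Or.inl ⟨h1.2, h2.2, h3⟩), k, mem_insert_self _ _, ?_⟩
    exact (mem_nb _ _ _).1 h1.1

lemma usedK_step {H : SimpleGraph V} {K : Finset V} {P : SimpleGraph V} {L : Finset V} {u : V → V}
    {New U : SimpleGraph V} {k : V} {X : Finset V} (hs : St H K P L u New U) (_hk : k ∈ K)
    (hX : ∀ x ∈ X, x ∉ K) : ∀ i ∈ K, ∀ j ∈ K, (U ⊔ star k X).Adj i j →
      P.Adj i j ∧ i ∈ insert k L ∧ j ∈ insert k L := by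
  intro i hi j hj h
  rcases h with h | h
  · obtain ⟨h1, h2, h3⟩ := hs.usedK i hi j hj h
    exact ⟨h1, mem_insert_of_mem h2, mem_insert_of_mem h3⟩
  · rcases h.2 with h | h
    · exact absurd hj (hX j h.2)
    · exact absurd hi (hX i h.2)

theorem step_even (H : SimpleGraph V) (K : Finset V) (P : SimpleGraph V) (L : Finset V) (u : V → V)
    (New U : SimpleGraph V) (k : V) (M : SimpleGraph V)
    (hP : ∀ x y, P.Adj x y → x ∈ K ∧ Odd (nb H x \ K).card)
    (hs : St H K P L u New U) (hk : k ∈ K) (hkL : k ∉ L)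
    (heven : Even (nb H k \ K).card)
    (hM : PM (off H K ⊔ New) (nb H k \ K) M) :
    ∃ u' New' U', St H K P (insert k L) u' New' U' := by
  classical
  have hkX : k ∉ nb H k \ K := fun h => (mem_sdiff.1 h).2 hk
  have hA := edisj_new hM
  have hB : EDisj U (star k (nb H k \ K)) := edisj_star hs hkL (fun x hx => (mem_sdiff.1 hx).2)
  refine ⟨u, New ⊔ M, U ⊔ star k (nb H k \ K), ?_⟩
  refine ⟨?_, ?_, ?_, ?_, ?_, ?_, ?_⟩
  · exact insert_subset hk hs.LK
  · exact imm_sup hs.imm (imm_star _ M _ k hkX hM) hA hB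
  · exact new_step hs hM (fun x hx => hx)
  · intro x hx
    rw [card_nb_sup hA, card_nb_sup hB, hs.deg x hx,
      card_nb_star _ M _ k hkX hM x (fun h => hx (h ▸ hk))]
  · intro x hx j
    rw [SimpleGraph.sup_adj, star_adj_out hk hx]
    by_cases hj : j = k
    · subst hj
      constructor
      · rintro (h | h)
        · exact absurd ((hs.used x hx j).1 h).1 hkL
        · have h2 := (mem_sdiff.1 h.2).1
          rw [mem_nb] at h2
          exact ⟨mem_insert_self _ _, h2, fun h3 => (Nat.not_odd_iff_even.2 heven) h3.1⟩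
      · rintro ⟨_, h2, _⟩
        exact Or.inr ⟨rfl, mem_sdiff.2 ⟨(mem_nb _ _ _).2 h2, hx⟩⟩
    · have hjk : ¬ P.Adj j k := fun h => (Nat.not_odd_iff_even.2 heven) (hP k j h.symm).2
      constructor
      · rintro (h | h)
        · obtain ⟨h1, h2, h3⟩ := (hs.used x hx j).1 h
          exact ⟨mem_insert_of_mem h1, h2, fun h4 => h3 ⟨h4.1,
            fun i hi => h4.2.1 i (mem_insert_of_mem hi), h4.2.2⟩⟩
        · exact absurd h.1 hj
      · rintro ⟨h1, h2, h3⟩
        refine Or.inl ((hs.used x hx j).2 ⟨mem_of_mem_insert_of_ne h1 hj, h2, fun h4 => h3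
          ⟨h4.1, fun i hi => ?_, h4.2.2⟩⟩)
        rcases mem_insert.1 hi with rfl | hi
        · exact hjk
        · exact h4.2.1 i hi
  · exact usedK_step hs hk (fun x hx => (mem_sdiff.1 hx).2)
  · intro j hj hodd
    rcases mem_insert.1 hj with rfl | hj
    · exact absurd hodd (Nat.not_odd_iff_even.2 heven)
    · exact hs.left j hj hodd

theorem step_odd (H : SimpleGraph V) (K : Finset V) (P : SimpleGraph V) (L : Finset V) (u : V → V)
    (New U : SimpleGraph V) (k : V) (M : SimpleGraph V)
    (hs : St H K P L u New U) (hk : k ∈ K) (hkL : k ∉ L)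
    (hodd : Odd (nb H k \ K).card) (hfree : ∀ j ∈ L, ¬ P.Adj k j)
    (u₀ : V) (hu₀ : u₀ ∈ nb H k \ K)
    (hM : PM (off H K ⊔ New) ((nb H k \ K).erase u₀) M) :
    ∃ u' New' U', St H K P (insert k L) u' New' U' := by
  classical
  have hsub : (nb H k \ K).erase u₀ ⊆ nb H k \ K := erase_subset _ _
  have hkX : k ∉ (nb H k \ K).erase u₀ := fun h => (mem_sdiff.1 (hsub h)).2 hk
  have hA := edisj_new hM
  have hB : EDisj U (star k ((nb H k \ K).erase u₀)) :=
    edisj_star hs hkL (fun x hx => (mem_sdiff.1 (hsub hx)).2)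
  refine ⟨Function.update u k u₀, New ⊔ M, U ⊔ star k ((nb H k \ K).erase u₀), ?_⟩
  refine ⟨?_, ?_, ?_, ?_, ?_, ?_, ?_⟩
  · exact insert_subset hk hs.LK
  · exact imm_sup hs.imm (imm_star _ M _ k hkX hM) hA hB
  · exact new_step hs hM (fun x hx => hsub hx)
  · intro x hx
    rw [card_nb_sup hA, card_nb_sup hB, hs.deg x hx,
      card_nb_star _ M _ k hkX hM x (fun h => hx (h ▸ hk))]
  · intro x hx j
    rw [SimpleGraph.sup_adj, star_adj_out hk hx]
    by_cases hj : j = k
    · subst hj
      rw [Function.update_self]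
      constructor
      · rintro (h | h)
        · exact absurd ((hs.used x hx j).1 h).1 hkL
        · have h1 := mem_erase.1 h.2
          have h2 := (mem_sdiff.1 h1.2).1
          rw [mem_nb] at h2
          exact ⟨mem_insert_self _ _, h2, fun h3 => h1.1 h3.2.2⟩
      · rintro ⟨_, h2, h3⟩
        refine Or.inr ⟨rfl, mem_erase.2 ⟨fun h4 => h3 ⟨hodd, ?_, h4⟩,
          mem_sdiff.2 ⟨(mem_nb _ _ _).2 h2, hx⟩⟩⟩
        intro i hi
        rcases mem_insert.1 hi with rfl | hi
        · exact P.loopless.irrefl _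
        · exact hfree i hi
    · rw [Function.update_of_ne hj]
      constructor
      · rintro (h | h)
        · obtain ⟨h1, h2, h3⟩ := (hs.used x hx j).1 h
          exact ⟨mem_insert_of_mem h1, h2, fun h4 => h3 ⟨h4.1,
            fun i hi => h4.2.1 i (mem_insert_of_mem hi), h4.2.2⟩⟩
        · exact absurd h.1 hj
      · rintro ⟨h1, h2, h3⟩
        have hjL := mem_of_mem_insert_of_ne h1 hj
        refine Or.inl ((hs.used x hx j).2 ⟨hjL, h2, fun h4 => h3
          ⟨h4.1, fun i hi => ?_, h4.2.2⟩⟩)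
        rcases mem_insert.1 hi with rfl | hi
        · exact fun h => hfree j hjL h.symm
        · exact h4.2.1 i hi
  · exact usedK_step hs hk (fun x hx => (mem_sdiff.1 (hsub hx)).2)
  · intro j hj hodd2
    rcases mem_insert.1 hj with rfl | hj
    · rw [Function.update_self]; exact hu₀
    · have hjk : j ≠ k := fun h => hkL (h ▸ hj)
      rw [Function.update_of_ne hjk]
      exact hs.left j hj hodd2

end Pool.Agent.Helper74.LM
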