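import Pool.Agent.Helper74.LM.Basic

set_option autoImplicit false

/-!
# LM-Tutte: Tutte's theorem for the complement of a graph on a finite set of vertices

PROOF.  Let `Q` be the graph on the subtype `N` (`{x // x ∈ N}`) in which different `x, y` are adjacent
iff `¬ J.Adj x y`.  Mathlib has Tutte's theorem
`SimpleGraph.tutte : (∃ M : G.Subgraph, M.IsPerfectMatching) ↔ ∀ u, ¬ G.IsTutteViolator u`
(file `Mathlib/Combinatorics/SimpleGraph/Tutte.lean`), `IsTutteViolator u` meaning that
`(⊤ : G.Subgraph).deleteVerts u` has more than `u.ncard` odd components.  If there is a perfect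
matching push it forward to `V`.  Otherwise let `u` be a violator, `S` its image in `V`; the number of
odd components `q` of `Q - u` satisfies `q > |S|`, and `q ≡ |N| - |S| ≡ |S|` mod 2 (Mathlib:
`SimpleGraph.odd_ncard_oddComponents` or similar), so `q ≥ |S| + 2`.  Let `c` be an injective
numbering of the connected components of `Q - u` (the type of components is finite), extended by
`0` outside `N \ S`.  Two vertices of `N \ S` with different labels are in different components,
so they are not adjacent in `Q`, i.e. adjacent in `J`.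
-/

namespace Pool.Agent.Helper74.LM

open Finset

theorem tutteDich {V : Type} [Fintype V] [DecidableEq V] (J : SimpleGraph V) (N : Finset V)
    (hN : Even N.card) :
    (∃ M : SimpleGraph V, PM J N M) ∨
      ∃ S : Finset V, S ⊆ N ∧ ∃ c : V → ℕ,
        (∀ x ∈ N \ S, ∀ y ∈ N \ S, c x ≠ c y → J.Adj x y) ∧
        S.card + 2 ≤ ((N \ S).image c).card := by
  classical
  let Q : SimpleGraph {x // x ∈ N} :=
    { Adj := fun x y => x ≠ y ∧ ¬ J.Adj x.1 y.1
      symm := ⟨fun _ _ h => ⟨h.1.symm, fun h' => h.2 h'.symm⟩⟩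
      loopless := ⟨fun _ h => h.1 rfl⟩ }
  by_cases hM : ∃ M : Q.Subgraph, M.IsPerfectMatching
  · left
    obtain ⟨M, hM1, hM2⟩ := hM
    let M' : SimpleGraph V :=
      { Adj := fun x y => ∃ (hx : x ∈ N) (hy : y ∈ N), M.Adj ⟨x, hx⟩ ⟨y, hy⟩
        symm := ⟨fun _ _ h => ⟨h.2.1, h.1, h.2.2.symm⟩⟩
        loopless := ⟨fun x h => by
          obtain ⟨h1, h2, h3⟩ := h
          exact (M.adj_sub h3).1 rfl⟩ }
    refine ⟨M', ?_, ?_, ?_⟩
    · rintro x y ⟨hx, hy, hxy⟩
      exact ⟨hx, hy, (M.adj_sub hxy).2⟩
    · intro x hx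
      obtain ⟨y, hy, -⟩ := hM1 (hM2 ⟨x, hx⟩)
      exact ⟨y.1, hx, y.2, hy⟩
    · rintro x y z ⟨hx, hy, hxy⟩ ⟨hx', hz, hxz⟩
      obtain ⟨w, -, hw⟩ := hM1 (hM2 ⟨x, hx⟩)
      have h1 := hw _ hxy
      have h2 := hw _ hxz
      have h3 := h1.trans h2.symm
      exact congrArg Subtype.val h3
  · right
    rw [SimpleGraph.tutte] at hM
    push Not at hM
    obtain ⟨u, hu⟩ := hM
    unfold SimpleGraph.IsTutteViolator at hu
    set D := ((⊤ : Q.Subgraph).deleteVerts u) with hD
    have hverts : ∀ x, x ∈ D.verts ↔ x ∉ u := by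
      intro x
      simp [hD]
    have hcardD : Nat.card D.verts + u.ncard = N.card := by
      have h1 : D.verts = uᶜ := by
        ext x
        rw [hverts x]
        rfl
      have h2 : Nat.card D.verts = (uᶜ).ncard := by rw [h1]; rfl
      have h3 : Nat.card {x // x ∈ N} = N.card := by simp
      rw [h2, ← h3, add_comm]
      exact Set.ncard_add_ncard_compl u
    have hpar := SimpleGraph.odd_ncard_oddComponents D.coe
    have hq : u.ncard + 2 ≤ D.coe.oddComponents.ncard := by
      rcases Nat.even_or_odd u.ncard with he | ho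
      · have h1 : ¬ Odd (Nat.card D.verts) := by
          rw [Nat.not_odd_iff_even]
          have h2 : Even (Nat.card D.verts + u.ncard) := by rw [hcardD]; exact hN
          exact (Nat.even_add.1 h2).2 he
        rw [← hpar, Nat.not_odd_iff_even] at h1
        obtain ⟨a, ha⟩ := he
        obtain ⟨b, hb⟩ := h1
        omega
      · have h1 : Odd (Nat.card D.verts) := by
          have h2 : Even (Nat.card D.verts + u.ncard) := by rw [hcardD]; exact hN
          rw [Nat.even_add, ← Nat.not_odd_iff_even, ← Nat.not_odd_iff_even] at h2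
          tauto
        rw [← hpar] at h1
        obtain ⟨a, ha⟩ := ho
        obtain ⟨b, hb⟩ := h1
        omega
    let S : Finset V := (Set.toFinite u).toFinset.image Subtype.val
    have hSN : S ⊆ N := by
      intro x hx
      obtain ⟨y, -, rfl⟩ := mem_image.1 hx
      exact y.2
    have hScard : S.card = u.ncard := by
      rw [card_image_of_injective _ Subtype.val_injective, Set.ncard_eq_toFinset_card u]
    have hSmem : ∀ x (hx : x ∈ N), x ∈ S ↔ (⟨x, hx⟩ : {x // x ∈ N}) ∈ u := by
      intro x hx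
      constructor
      · intro h
        obtain ⟨y, hy, hyx⟩ := mem_image.1 h
        have h1 : y = ⟨x, hx⟩ := Subtype.ext hyx
        rw [← h1]
        exact (Set.Finite.mem_toFinset _).1 hy
      · intro h
        exact mem_image.2 ⟨⟨x, hx⟩, (Set.Finite.mem_toFinset _).2 h, rfl⟩
    obtain ⟨k, ⟨e⟩⟩ := Finite.exists_equiv_fin D.coe.ConnectedComponent
    let c : V → ℕ := fun x =>
      if h : ∃ hx : x ∈ N, (⟨x, hx⟩ : {x // x ∈ N}) ∈ D.verts then
        (e (D.coe.connectedComponentMk ⟨⟨x, h.choose⟩, h.choose_spec⟩)).val else 0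
    have hc : ∀ x (hx : x ∈ N) (hxD : (⟨x, hx⟩ : {x // x ∈ N}) ∈ D.verts),
        c x = (e (D.coe.connectedComponentMk ⟨⟨x, hx⟩, hxD⟩)).val := by
      intro x hx hxD
      have h : ∃ hx : x ∈ N, (⟨x, hx⟩ : {x // x ∈ N}) ∈ D.verts := ⟨hx, hxD⟩
      simp only [c]
      rw [dif_pos h]
    have hmemD : ∀ x (hx : x ∈ N \ S), (⟨x, (mem_sdiff.1 hx).1⟩ : {x // x ∈ N}) ∈ D.verts := by
      intro x hx
      rw [hverts]
      intro h
      exact (mem_sdiff.1 hx).2 ((hSmem x (mem_sdiff.1 hx).1).2 h)
    refine ⟨S, hSN, c, ?_, ?_⟩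
    · intro x hx y hy hne
      rw [hc x _ (hmemD x hx), hc y _ (hmemD y hy)] at hne
      by_contra hJ
      apply hne
      have hxy : x ≠ y := by
        rintro rfl
        exact hne rfl
      have hadj : D.coe.Adj ⟨⟨x, (mem_sdiff.1 hx).1⟩, hmemD x hx⟩
          ⟨⟨y, (mem_sdiff.1 hy).1⟩, hmemD y hy⟩ := by
        have h1 : Q.Adj ⟨x, (mem_sdiff.1 hx).1⟩ ⟨y, (mem_sdiff.1 hy).1⟩ :=
          ⟨fun h => hxy (congrArg Subtype.val h), hJ⟩
        have h2 := (hverts _).1 (hmemD x hx)
        have h3 := (hverts _).1 (hmemD y hy)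
        rw [SimpleGraph.Subgraph.coe_adj]
        exact SimpleGraph.Subgraph.deleteVerts_adj.2 ⟨by simp, h2, by simp, h3, by simpa using h1⟩
      rw [SimpleGraph.ConnectedComponent.sound hadj.reachable]
    · have h1 : (univ : Finset D.coe.ConnectedComponent).image (fun a => (e a).val) ⊆
          (N \ S).image c := by
        intro a ha
        obtain ⟨C, -, rfl⟩ := mem_image.1 ha
        induction C using SimpleGraph.ConnectedComponent.ind with
        | _ v =>
          obtain ⟨⟨x, hx⟩, hv⟩ := v
          refine mem_image.2 ⟨x, ?_, hc x hx hv⟩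
          rw [mem_sdiff]
          refine ⟨hx, fun h => ?_⟩
          exact (hverts _).1 hv ((hSmem x hx).1 h)
      have h2 := card_le_card h1
      rw [card_image_of_injective _ (fun a b h => e.injective (Fin.ext h))] at h2
      have h3 : D.coe.oddComponents.ncard ≤ (univ : Finset D.coe.ConnectedComponent).card := by
        rw [card_univ, ← Nat.card_eq_fintype_card]
        exact Set.ncard_le_card _
      rw [hScard]
      omega

end Pool.Agent.Helper74.LM
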